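import Pool.Agent.Helper51.DW.Cross

set_option autoImplicit false

/-!
# MP_09ef41_lc: completeness, a line arrangement gives a crossing-free realization of the walk
-/

namespace Pool.Agent.Helper51.DW

theorem pos_lb {ι : Type} (s : Finset ι) (g : ι → ℝ) (hg : ∀ i ∈ s, 0 < g i) :
    ∃ η > 0, ∀ i ∈ s, η ≤ g i := by
  classical
  induction s using Finset.induction_on with
  | empty => exact ⟨1, one_pos, by simp⟩
  | insert a s _ ih =>
    obtain ⟨η, h1, h2⟩ := ih fun i hi => hg i (Finset.mem_insert_of_mem hi)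
    refine ⟨min η (g a), lt_min h1 (hg a (Finset.mem_insert_self _ _)), ?_⟩
    intro i hi
    rcases Finset.mem_insert.1 hi with rfl | hi
    · exact min_le_right _ _
    · exact (min_le_left _ _).trans (h2 i hi)

theorem exists_good (n : ℕ) (m c : ℕ → ℝ) (hm : ∀ i j, i < j → j < n → m i < m j) :
    ∃ R ε η, Good n m c R ε η := by
  classical
  obtain ⟨R0, hR0⟩ := (((Finset.range n) ×ˢ (Finset.range n)).image
    fun ij : ℕ × ℕ => |xx m c ij.1 ij.2|).exists_le
  have hR1 : ∀ i j, i < n → j < n → |xx m c i j| ≤ R0 := by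
    intro i j hi hj
    refine hR0 _ (Finset.mem_image.2 ⟨(i, j), ?_, rfl⟩)
    simp [hi, hj]
  set R := |R0| + 1 with hR
  have hRpos : 0 < R := by positivity
  obtain ⟨η, hη, hη'⟩ := pos_lb ((Finset.range n) ×ˢ ((Finset.range n) ×ˢ (Finset.range n)))
    (fun ijk : ℕ × ℕ × ℕ => if xx m c ijk.1 ijk.2.1 < xx m c ijk.1 ijk.2.2 then
      (xx m c ijk.1 ijk.2.2 - xx m c ijk.1 ijk.2.1) / 2 else 1) (by
      intro ijk _
      split_ifs with h
      · linarith
      · exact one_pos)
  obtain ⟨ρ, hρ, hρ'⟩ := pos_lb ((Finset.range n) ×ˢ (Finset.range n))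
    (fun ij : ℕ × ℕ => if ij.1 = ij.2 then 1 else |m ij.1 - m ij.2|) (by
      intro ij hij
      rw [Finset.mem_product, Finset.mem_range, Finset.mem_range] at hij
      split_ifs with h
      · exact one_pos
      · rw [abs_pos, sub_ne_zero]
        rcases lt_or_gt_of_ne h with h1 | h1
        · exact (hm _ _ h1 hij.2).ne
        · exact (hm _ _ h1 hij.1).ne')
  have hρ2 : ∀ i j, i < n → j < n → i ≠ j → ρ ≤ |m i - m j| := by
    intro i j hi hj hij
    have := hρ' (i, j) (by simp [hi, hj])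
    simpa [hij] using this
  refine ⟨R, min (ρ / (16 * R)) (η * ρ / (8 * R ^ 2)), η, hRpos, ?_, hm, ?_, ?_, ?_, ?_⟩
  · exact lt_min (by positivity) (by positivity)
  · intro i j hi hj hij
    have h1 : min (ρ / (16 * R)) (η * ρ / (8 * R ^ 2)) * R ≤ ρ / (16 * R) * R :=
      mul_le_mul_of_nonneg_right (min_le_left _ _) hRpos.le
    have h2 : ρ / (16 * R) * R = ρ / 16 := by field_simp
    have h3 := hρ2 i j hi hj hij
    linarith
  · intro i j hi hj hij
    have h1 := hR1 i j hi hj
    have h2 := le_abs_self R0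
    rw [hR]
    linarith
  · intro i j hi hj hij
    have h1 : min (ρ / (16 * R)) (η * ρ / (8 * R ^ 2)) * R ^ 2 ≤ η * ρ / (8 * R ^ 2) * R ^ 2 :=
      mul_le_mul_of_nonneg_right (min_le_right _ _) (by positivity)
    have h2 : η * ρ / (8 * R ^ 2) * R ^ 2 = η * ρ / 8 := by field_simp
    have h3 := mul_le_mul_of_nonneg_left (hρ2 i j hi hj hij) hη.le
    have h4 := mul_pos hη hρ
    linarith
  · intro i j k hi hj hk hjk
    have := hη' (i, j, k) (by simp [hi, hj, hk])
    simp only [hjk, if_true] at this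
    linarith

theorem allOK {L : List (List ℕ)} {m c : ℕ → ℝ}
    (h : ∀ (i : ℕ) (l : List ℕ), L[i]? = some l →
      l.Perm ((List.range L.length).erase i) ∧
      l.Pairwise fun j k => (c i - c j) / (m j - m i) < (c i - c k) / (m k - m i)) :
    AllOK L.length m c L := by
  intro i l hl
  obtain ⟨h1, h2⟩ := h i l hl
  have hi : i < L.length := by
    by_contra hcon
    rw [List.getElem?_eq_none (by omega)] at hl
    simp at hl
  have hmem : ∀ j, j ∈ l ↔ j ≠ i ∧ j < L.length := by
    intro j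
    rw [h1.mem_iff, List.nodup_range.mem_erase_iff, List.mem_range]
  refine ⟨⟨hi, fun j hj => ?_, h2⟩, fun j hj hji => (hmem j).2 ⟨hji, hj⟩⟩
  exact ⟨((hmem j).1 hj).2, ((hmem j).1 hj).1⟩

theorem valid_of_stretch {L : List (List ℕ)} (hL : L ∈ SimpleStretchability) : Valid L := by
  obtain ⟨m, c, hm, h⟩ := hL
  intro i l hl
  have h1 := allOK h i l hl
  refine ⟨?_, h1.2⟩
  have hi := h1.1.1
  have h2 := (h i l hl).1.length_eq
  rw [List.length_erase_of_mem (List.mem_range.2 hi), List.length_range] at h2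
  omega

theorem walk_len {L : List (List ℕ)} {l : List ℕ} (h : l ≠ []) : 2 ≤ (walk 0 (l :: L)).length := by
  obtain ⟨a, b, r, hr⟩ := rungs_ne (i := 0) h
  rw [walk_cons, hr]
  simp [strip]

/-- completeness -/
theorem complete {L : List (List ℕ)} (hL : L ∈ SimpleStretchability) (hn : 2 ≤ L.length) :
    ∃ X : Vtx → Pt, (walk 0 L).IsChain (· ≠ ·) ∧
      (∀ u ∈ walk 0 L, ∀ v ∈ walk 0 L, X u = X v → u = v) ∧ RT ((walk 0 L).map X) ∧
      IsCrossingFree (walk 0 L) X := by
  obtain ⟨m, c, hm, h⟩ := hL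
  obtain ⟨R, ε, η, hg⟩ := exists_good L.length m c hm
  have hok := allOK h
  have hch : (walk 0 L).IsChain (Ed L) := by
    refine walk_chain (n := L.length) ?_ ?_ ?_ hn L 0 (by omega) ?_
    · intro i hi
      exact ⟨L[i], List.getElem?_eq_getElem hi⟩
    · intro i l hl
      exact (hok i l hl).2
    · intro i l hl
      exact (hok i l hl).1.2.1
    · intro i l hl
      rwa [Nat.zero_add]
  have hlen : 2 ≤ (walk 0 L).length := by
    rcases L with _ | ⟨l, L⟩
    · simp at hn
    · have h1 := hok 0 l rfl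
      have : 1 ∈ l := h1.2 1 (by omega) (by omega)
      exact walk_len (List.ne_nil_of_mem this)
  have hmem : ∀ v ∈ walk 0 L, ∃ i l, L[i]? = some l ∧ ∃ α, v ∈ ch i α l := by
    intro v hv
    obtain ⟨u, hu⟩ := mem_of_isChain hch hlen v hv
    rcases hu with ⟨i, l, hl, α, hu⟩ | ⟨i, l, hl, α, hu⟩
    · exact ⟨i, l, hl, α, hu.elim (fun h => (infix_mem h).2) (fun h => (infix_mem h).1)⟩
    · exact ⟨i, l, hl, α, hu.elim (fun h => (infix_mem h).1) (fun h => (infix_mem h).2)⟩
  refine ⟨XX m c R ε, ?_, ?_, ?_, hg.crossingFree hn hok hch⟩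
  · refine hch.imp ?_
    rintro u v ⟨i, l, hl, α, hu⟩ rfl
    have hinc : (ch i α l).Pairwise fun a b => (XX m c R ε a).1 < (XX m c R ε b).1 :=
      hg.ch_inc (hok i l hl).1 α
    rcases hu with hu | hu
    · exact lt_irrefl _ (infix_lt hinc hu)
    · exact lt_irrefl _ (infix_lt hinc hu)
  · intro u hu v hv huv
    obtain ⟨i, l, hl, α, hu⟩ := hmem u hu
    obtain ⟨j, l', hl', β, hv⟩ := hmem v hv
    exact hg.inj hok hl hl' hu hv huv
  · refine hg.walk_RT L 0 (by omega) ?_ hn
    intro i l hl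
    rw [Nat.zero_add]
    exact hok i l hl

end Pool.Agent.Helper51.DW
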