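import Pool.Agent.Helper51.DW.Edges

set_option autoImplicit false

/-!
# MP_09ef41_lc: completeness, the placement is injective and crossing-free
-/

namespace Pool.Agent.Helper51.DW

theorem pairwise_or {V : Type} {R : V → V → Prop} : ∀ {l : List V}, l.Pairwise R →
    ∀ u ∈ l, ∀ v ∈ l, u = v ∨ R u v ∨ R v u
  | [], _, _, h, _, _ => by simp at h
  | a :: l, h, u, hu, v, hv => by
    rw [List.pairwise_cons] at h
    rcases List.mem_cons.1 hu with hu | hu
    · rcases List.mem_cons.1 hv with hv | hv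
      · exact Or.inl (hu.trans hv.symm)
      · rw [hu]
        exact Or.inr (Or.inl (h.1 v hv))
    · rcases List.mem_cons.1 hv with hv | hv
      · rw [hv]
        exact Or.inr (Or.inr (h.1 u hu))
      · exact pairwise_or h.2 u hu v hv

/-- consecutive elements of a sorted list -/
theorem adj {V : Type} {f : V → ℝ} {l : List V} (h : l.Pairwise fun u v => f u < f v)
    {u v : V} (huv : [u, v] <:+: l) {w : V} (hw : w ∈ l) : f w ≤ f u ∨ f v ≤ f w := by
  obtain ⟨s, t, rfl⟩ := huv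
  rw [List.append_assoc, List.pairwise_append, List.pairwise_append] at h
  rw [List.append_assoc, List.mem_append, List.mem_append] at hw
  rcases hw with hw | hw | hw
  · exact Or.inl (h.2.2 w hw u (by simp)).le
  · simp only [List.mem_cons, List.not_mem_nil, or_false] at hw
    rcases hw with rfl | rfl
    · exact Or.inl le_rfl
    · exact Or.inr le_rfl
  · exact Or.inr (h.2.1.2.2 v (by simp) w hw).le

theorem infix_lt {V : Type} {f : V → ℝ} {l : List V} (h : l.Pairwise fun u v => f u < f v)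
    {u v : V} (huv : [u, v] <:+: l) : f u < f v := by
  obtain ⟨s, t, rfl⟩ := huv
  rw [List.append_assoc, List.pairwise_append, List.pairwise_append] at h
  simpa using h.2.1.1

theorem infix_mem {V : Type} {l : List V} {u v : V} (huv : [u, v] <:+: l) : u ∈ l ∧ v ∈ l :=
  ⟨huv.subset (by simp), huv.subset (by simp)⟩

/-- points of a chord of a chain -/
theorem chord {m c R ε : ℝ} {α : Bool} {P Q z : Pt} (hP : On m c R ε α P) (hQ : On m c R ε α Q)
    (h : P.1 < Q.1) (hz : z ∈ segment ℝ P Q) : P.1 ≤ z.1 ∧ z.1 ≤ Q.1 ∧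
      z.2 = m * z.1 + c + sg α * (ε * (R ^ 2 - z.1 ^ 2 - (z.1 - P.1) * (Q.1 - z.1))) := by
  obtain ⟨a, b, ha, hb, hab, rfl⟩ := hz
  have h1 : (a • P + b • Q).1 = a * P.1 + b * Q.1 := rfl
  have h2 : (a • P + b • Q).2 = a * P.2 + b * Q.2 := rfl
  rw [h1, h2, hP.1, hQ.1]
  have ha' : a = 1 - b := by linarith
  subst ha'
  refine ⟨?_, ?_, ?_⟩
  · nlinarith
  · nlinarith
  · ring

section

variable {n : ℕ} {m c : ℕ → ℝ} {R ε η : ℝ} {M : List (List ℕ)}

/-- all sequences are correct -/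
def AllOK (n : ℕ) (m c : ℕ → ℝ) (M : List (List ℕ)) : Prop :=
  ∀ i l, M[i]? = some l → OK n m c i l ∧ ∀ j < n, j ≠ i → j ∈ l

theorem Good.same (h : Good n m c R ε η) {i : ℕ} {l : List ℕ} (hl : OK n m c i l) {α : Bool}
    {u v : Vtx} (hu : u ∈ ch i α l) (hv : v ∈ ch i α l)
    (huv : (XX m c R ε u).1 = (XX m c R ε v).1) : u = v := by
  rcases pairwise_or (h.ch_inc hl α) u hu v hv with h1 | h1 | h1
  · exact h1
  · exact absurd huv (ne_of_lt h1)
  · exact absurd huv.symm (ne_of_lt h1)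

/-- a common point of two chains of different lenses -/
theorem Good.common (h : Good n m c R ε η) (hM : AllOK n m c M) {i j : ℕ} {l l' : List ℕ}
    (hl : M[i]? = some l) (hl' : M[j]? = some l') (hij : i ≠ j) {α β : Bool} {u : Vtx}
    (hu : u ∈ ch i α l) (hx : (XX m c R ε u).1 = xi m c R ε i α j β) : u = vx i α j β := by
  obtain ⟨h1, h2⟩ := hM i l hl
  obtain ⟨h1', h2'⟩ := hM j l' hl'
  refine h.same h1 hu ?_ ?_
  · have := vx_mem_vs (i := i) (h2 j h1'.1 hij.symm) α β
    rw [ch]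
    simp [this]
  · rw [hx, h.XX_vx h1.1 h1'.1 hij]

theorem Good.inj (h : Good n m c R ε η) (hM : AllOK n m c M) {i j : ℕ} {l l' : List ℕ}
    (hl : M[i]? = some l) (hl' : M[j]? = some l') {α β : Bool} {u v : Vtx}
    (hu : u ∈ ch i α l) (hv : v ∈ ch j β l') (huv : XX m c R ε u = XX m c R ε v) : u = v := by
  have h1 := (hM i l hl).1
  have h1' := (hM j l' hl').1
  have ou := h.ch_on h1 α u hu
  have ov := h.ch_on h1' β v hv
  by_cases hij : i = j
  · subst hij
    have e : l = l' := by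
      rw [hl] at hl'
      exact Option.some.inj hl'
    subst e
    by_cases hαβ : α = β
    · subst hαβ
      exact h.same h1 hu hv (by rw [huv])
    · have hx : (XX m c R ε u).1 = -R ∨ (XX m c R ε u).1 = R := by
        have e1 := ou.1
        have e2 := ov.1
        rw [← huv] at e2
        have hs : sg α - sg β ≠ 0 := by
          cases α <;> cases β <;> simp_all [sg]; norm_num
        have e3 : (sg α - sg β) * (ε * (R ^ 2 - (XX m c R ε u).1 ^ 2)) = 0 := by
          linear_combination e2 - e1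
        have e4 : R ^ 2 - (XX m c R ε u).1 ^ 2 = 0 := by
          rcases mul_eq_zero.1 e3 with h3 | h3
          · exact absurd h3 hs
          · rcases mul_eq_zero.1 h3 with h4 | h4
            · exact absurd h4 h.ε0.ne'
            · exact h4
        have e5 : (R - (XX m c R ε u).1) * (R + (XX m c R ε u).1) = 0 := by
          linear_combination e4
        rcases mul_eq_zero.1 e5 with h3 | h3
        · right; linarith
        · left; linarith
      have hpα : ∀ γ, pp i ∈ ch i γ l := fun γ => by rw [ch]; simp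
      have hqα : ∀ γ, qq i ∈ ch i γ l := fun γ => by rw [ch]; simp
      rcases hx with hx | hx
      · have e1 : u = pp i := h.same h1 hu (hpα α) (by rw [hx, XX_pp])
        have e2 : v = pp i := h.same h1 hv (hpα β) (by rw [← huv, hx, XX_pp])
        rw [e1, e2]
      · have e1 : u = qq i := h.same h1 hu (hqα α) (by rw [hx, XX_qq])
        have e2 : v = qq i := h.same h1 hv (hqα β) (by rw [← huv, hx, XX_qq])
        rw [e1, e2]
  · have hx : (XX m c R ε u).1 = xi m c R ε i α j β := by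
      refine h.uniq h1.1 h1'.1 hij α β ou.2 (h.xi_spec h1.1 h1'.1 hij α β).1 ?_
        (h.xi_spec h1.1 h1'.1 hij α β).2
      have e1 := ou.1
      have e2 := ov.1
      rw [← huv] at e2
      exact e1.symm.trans e2
    have e1 := h.common hM hl hl' hij hu hx
    have e2 := h.common hM hl' hl (Ne.symm hij) hv
      (by rw [← huv, hx, h.xi_comm h1.1 h1'.1 hij α β])
    rw [e1, e2, vx_comm hij]

/-- two chords of the same chain -/
theorem Good.cross_same (h : Good n m c R ε η) {i : ℕ} {l : List ℕ} (hl : OK n m c i l)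
    {α : Bool} {u v u' v' : Vtx} (huv : [u, v] <:+: ch i α l) (huv' : [u', v'] <:+: ch i α l)
    (hne : ¬ (u = u' ∧ v = v')) {z : Pt} (hz : z ∈ segment ℝ (XX m c R ε u) (XX m c R ε v))
    (hz' : z ∈ segment ℝ (XX m c R ε u') (XX m c R ε v')) :
    ∃ w, (w = u ∨ w = v) ∧ (w = u' ∨ w = v') ∧ z = XX m c R ε w := by
  have hinc : (ch i α l).Pairwise fun a b => (XX m c R ε a).1 < (XX m c R ε b).1 :=
    h.ch_inc hl α
  obtain ⟨mu, mv⟩ := infix_mem huv
  obtain ⟨mu', mv'⟩ := infix_mem huv'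
  have on := h.ch_on hl α
  obtain ⟨z1, z2, z3⟩ := chord (on u mu) (on v mv) (infix_lt hinc huv) hz
  obtain ⟨z1', z2', z3'⟩ := chord (on u' mu') (on v' mv') (infix_lt hinc huv') hz'
  have l1 := infix_lt hinc huv
  have l2 := infix_lt hinc huv'
  have hzu : z.1 = (XX m c R ε u).1 → z = XX m c R ε u := by
    intro e
    refine Prod.ext e ?_
    rw [z3, (on u mu).1, e]
    ring
  have hzv : z.1 = (XX m c R ε v).1 → z = XX m c R ε v := by
    intro e
    refine Prod.ext e ?_
    rw [z3, (on v mv).1, e]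
    ring
  rcases adj hinc huv mu' with a1 | a1
  · rcases adj hinc huv' mu with a2 | a2
    · have e1 : u = u' := h.same hl mu mu' (le_antisymm a2 a1)
      have e2 : v = v' := by
        refine h.same hl mv mv' (le_antisymm ?_ ?_)
        · rcases adj hinc huv mv' with a3 | a3
          · rw [e1] at a3; exact absurd l2 (not_lt.2 a3)
          · exact a3
        · rcases adj hinc huv' mv with a3 | a3
          · rw [e1] at l1; exact absurd l1 (not_lt.2 a3)
          · exact a3
      exact absurd ⟨e1, e2⟩ hne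
    · have e1 : z.1 = (XX m c R ε u).1 := le_antisymm (z2'.trans a2) z1
      have e2 : u = v' := h.same hl mu mv' (le_antisymm (z1.trans z2') a2)
      exact ⟨u, Or.inl rfl, Or.inr e2, hzu e1⟩
  · have e1 : z.1 = (XX m c R ε v).1 := le_antisymm z2 (a1.trans z1')
    have e2 : v = u' := h.same hl mv mu' (le_antisymm a1 (z1'.trans z2))
    exact ⟨v, Or.inr rfl, Or.inl e2, hzv e1⟩

theorem par_aux {R x s t : ℝ} (h1 : -R ≤ s) (h2 : s ≤ x) (h3 : x ≤ t) (h4 : t ≤ R) :
    0 ≤ R ^ 2 - x ^ 2 - (x - s) * (t - x) := by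
  nlinarith [mul_nonneg (sub_nonneg.2 h1) (sub_nonneg.2 (h3.trans h4)),
    mul_nonneg (sub_nonneg.2 h2) (sub_nonneg.2 h4)]

theorem par_aux' {R x s t : ℝ} (h1 : -R ≤ s) (h2 : s ≤ x) (h3 : x ≤ t) (h4 : t ≤ R)
    (h0 : R ^ 2 - x ^ 2 - (x - s) * (t - x) = 0) : x = -R ∨ x = R ∨ (s = -R ∧ t = R) := by
  by_contra hcon
  push Not at hcon
  obtain ⟨a1, a2, a3⟩ := hcon
  have b1 : -R < x := lt_of_le_of_ne (h1.trans h2) (Ne.symm a1)
  have b2 : x < R := lt_of_le_of_ne (h3.trans h4) a2
  have e : (s + R) * (R - x) + (x - s) * (R - t) = 0 := by linear_combination h0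
  have c1 := mul_nonneg (show 0 ≤ s + R by linarith) (show 0 ≤ R - x by linarith)
  have c2 := mul_nonneg (show 0 ≤ x - s by linarith) (show 0 ≤ R - t by linarith)
  have c3 : (s + R) * (R - x) = 0 := by linarith
  have c4 : (x - s) * (R - t) = 0 := by linarith
  have c5 : s = -R := by
    rcases mul_eq_zero.1 c3 with h | h <;> linarith
  refine a3 c5 ?_
  rcases mul_eq_zero.1 c4 with h | h <;> linarith

/-- an edge of a chain does not join the two ends -/
theorem Good.not_ends (h : Good n m c R ε η) {i : ℕ} {l : List ℕ} (hl : OK n m c i l)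
    (hne : l ≠ []) {α : Bool} {u v : Vtx} (huv : [u, v] <:+: ch i α l) :
    ¬ ((XX m c R ε u).1 = -R ∧ (XX m c R ε v).1 = R) := by
  rintro ⟨e1, e2⟩
  have hinc : (ch i α l).Pairwise fun a b => (XX m c R ε a).1 < (XX m c R ε b).1 :=
    h.ch_inc hl α
  obtain ⟨j, hj⟩ := List.exists_mem_of_ne_nil l hne
  obtain ⟨h1, h2⟩ := hl.2.1 j hj
  have h3 := h.on_vx hl.1 h1 h2.symm α true
  have hm := vx_mem_vs (i := i) hj α true
  rcases adj hinc huv (w := vx i α j true) (by rw [ch]; simp [hm]) with h4 | h4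
  · linarith [h3.2.1]
  · linarith [h3.2.2]

/-- two chords of the two chains of the same lens -/
theorem Good.cross_lens (h : Good n m c R ε η) {i : ℕ} {l : List ℕ} (hl : OK n m c i l)
    (hne : l ≠ []) {α β : Bool} (hαβ : α ≠ β) {u v u' v' : Vtx} (huv : [u, v] <:+: ch i α l)
    (huv' : [u', v'] <:+: ch i β l)
    {z : Pt} (hz : z ∈ segment ℝ (XX m c R ε u) (XX m c R ε v))
    (hz' : z ∈ segment ℝ (XX m c R ε u') (XX m c R ε v')) :
    ∃ w, (w = u ∨ w = v) ∧ (w = u' ∨ w = v') ∧ z = XX m c R ε w := by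
  have hinc : (ch i α l).Pairwise fun a b => (XX m c R ε a).1 < (XX m c R ε b).1 :=
    h.ch_inc hl α
  have hinc' : (ch i β l).Pairwise fun a b => (XX m c R ε a).1 < (XX m c R ε b).1 :=
    h.ch_inc hl β
  obtain ⟨mu, mv⟩ := infix_mem huv
  obtain ⟨mu', mv'⟩ := infix_mem huv'
  have on := h.ch_on hl α
  have on' := h.ch_on hl β
  obtain ⟨z1, z2, z3⟩ := chord (on u mu) (on v mv) (infix_lt hinc huv) hz
  obtain ⟨z1', z2', z3'⟩ := chord (on' u' mu') (on' v' mv') (infix_lt hinc' huv') hz'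
  have p1 := par_aux (on u mu).2.1 z1 z2 (on v mv).2.2
  have p2 := par_aux (on' u' mu').2.1 z1' z2' (on' v' mv').2.2
  have hs : sg β = - sg α ∧ sg α ≠ 0 := by
    cases α <;> cases β <;> simp_all [sg]
  have e0 : sg α * (ε * ((R ^ 2 - z.1 ^ 2 - (z.1 - (XX m c R ε u).1) * ((XX m c R ε v).1 - z.1)) +
      (R ^ 2 - z.1 ^ 2 - (z.1 - (XX m c R ε u').1) * ((XX m c R ε v').1 - z.1)))) = 0 := by
    rw [hs.1] at z3'
    linear_combination z3' - z3
  have e1 : (R ^ 2 - z.1 ^ 2 - (z.1 - (XX m c R ε u).1) * ((XX m c R ε v).1 - z.1)) +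
      (R ^ 2 - z.1 ^ 2 - (z.1 - (XX m c R ε u').1) * ((XX m c R ε v').1 - z.1)) = 0 := by
    rcases mul_eq_zero.1 e0 with h3 | h3
    · exact absurd h3 hs.2
    · rcases mul_eq_zero.1 h3 with h4 | h4
      · exact absurd h4 h.ε0.ne'
      · exact h4
  have hpα : ∀ γ, pp i ∈ ch i γ l := fun γ => by rw [ch]; simp
  have hqα : ∀ γ, qq i ∈ ch i γ l := fun γ => by rw [ch]; simp
  rcases par_aux' (on u mu).2.1 z1 z2 (on v mv).2.2 (by linarith) with hx | hx | hx
  · have b1 : (XX m c R ε u).1 = -R := le_antisymm (by linarith) (on u mu).2.1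
    have b2 : (XX m c R ε u').1 = -R := le_antisymm (by linarith) (on' u' mu').2.1
    have e2 : u = pp i := h.same hl mu (hpα α) (by rw [b1, XX_pp])
    have e3 : u' = pp i := h.same hl mu' (hpα β) (by rw [b2, XX_pp])
    refine ⟨u, Or.inl rfl, Or.inl (by rw [e2, e3]), Prod.ext (by rw [hx, b1]) ?_⟩
    rw [z3, (on u mu).1, hx, b1]
    ring
  · have b1 : (XX m c R ε v).1 = R := le_antisymm (on v mv).2.2 (by linarith)
    have b2 : (XX m c R ε v').1 = R := le_antisymm (on' v' mv').2.2 (by linarith)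
    have e2 : v = qq i := h.same hl mv (hqα α) (by rw [b1, XX_qq])
    have e3 : v' = qq i := h.same hl mv' (hqα β) (by rw [b2, XX_qq])
    refine ⟨v, Or.inr rfl, Or.inr (by rw [e2, e3]), Prod.ext (by rw [hx, b1]) ?_⟩
    rw [z3, (on v mv).1, hx, b1]
    ring
  · exact absurd hx (h.not_ends hl hne huv)

theorem dist_aux {R x s t ξ : ℝ} (h1 : -R ≤ s) (h2 : s ≤ x) (h3 : x ≤ t) (h4 : t ≤ R)
    (h : ξ ≤ s ∨ t ≤ ξ) : 0 ≤ (x - s) * (t - x) ∧ (x - s) * (t - x) ≤ 2 * R * |x - ξ| := by
  refine ⟨mul_nonneg (by linarith) (by linarith), ?_⟩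
  rcases h with h | h
  · have : x - s ≤ |x - ξ| := (by linarith : x - s ≤ x - ξ).trans (le_abs_self _)
    nlinarith [mul_le_mul this (show t - x ≤ 2 * R by linarith) (by linarith) (abs_nonneg (x - ξ))]
  · have : t - x ≤ |x - ξ| := (by linarith : t - x ≤ -(x - ξ)).trans (neg_le_abs _)
    nlinarith [mul_le_mul this (show x - s ≤ 2 * R by linarith) (by linarith) (abs_nonneg (x - ξ))]

/-- two chords of chains of different lenses -/
theorem Good.cross_diff (h : Good n m c R ε η) (hM : AllOK n m c M) {i j : ℕ} {l l' : List ℕ}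
    (hl : M[i]? = some l) (hl' : M[j]? = some l') (hij : i ≠ j)
    {α β : Bool} {u v u' v' : Vtx} (huv : [u, v] <:+: ch i α l) (huv' : [u', v'] <:+: ch j β l')
    {z : Pt} (hz : z ∈ segment ℝ (XX m c R ε u) (XX m c R ε v))
    (hz' : z ∈ segment ℝ (XX m c R ε u') (XX m c R ε v')) :
    ∃ w, (w = u ∨ w = v) ∧ (w = u' ∨ w = v') ∧ z = XX m c R ε w := by
  have h1 := (hM i l hl).1
  have h1' := (hM j l' hl').1
  have hinc : (ch i α l).Pairwise fun a b => (XX m c R ε a).1 < (XX m c R ε b).1 :=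
    h.ch_inc h1 α
  have hinc' : (ch j β l').Pairwise fun a b => (XX m c R ε a).1 < (XX m c R ε b).1 :=
    h.ch_inc h1' β
  obtain ⟨mu, mv⟩ := infix_mem huv
  obtain ⟨mu', mv'⟩ := infix_mem huv'
  have on := h.ch_on h1 α
  have on' := h.ch_on h1' β
  obtain ⟨z1, z2, z3⟩ := chord (on u mu) (on v mv) (infix_lt hinc huv) hz
  obtain ⟨z1', z2', z3'⟩ := chord (on' u' mu') (on' v' mv') (infix_lt hinc' huv') hz'
  have hξ := h.xi_spec h1.1 h1'.1 hij α β
  have hmem : vx i α j β ∈ ch i α l := by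
    have := vx_mem_vs (i := i) ((hM i l hl).2 j h1'.1 (Ne.symm hij)) α β
    rw [ch]; simp [this]
  have hmem' : vx i α j β ∈ ch j β l' := by
    have := vx_mem_vs (i := j) ((hM j l' hl').2 i h1.1 hij) β α
    rw [vx_comm hij, ch]; simp [this]
  have hX := h.XX_vx h1.1 h1'.1 hij α β
  have a1 := adj hinc huv hmem
  have a2 := adj hinc' huv' hmem'
  rw [hX] at a1 a2
  generalize hξe : xi m c R ε i α j β = ξ at *
  simp only at a1 a2
  have d1 := dist_aux (on u mu).2.1 z1 z2 (on v mv).2.2 a1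
  have d2 := dist_aux (on' u' mu').2.1 z1' z2' (on' v' mv').2.2 a2
  have hx : z.1 = ξ := by
    have hlip := h.lip h1.1 h1'.1 hij α β (x := z.1) (y := ξ)
      ⟨(on u mu).2.1.trans z1, z2.trans (on v mv).2.2⟩ hξ.1
    rw [hξ.2, sub_self, sub_zero] at hlip
    have e : cv m c R ε i α z.1 - cv m c R ε j β z.1 =
        sg α * (ε * ((z.1 - (XX m c R ε u).1) * ((XX m c R ε v).1 - z.1))) -
        sg β * (ε * ((z.1 - (XX m c R ε u').1) * ((XX m c R ε v').1 - z.1))) := by
      unfold cv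
      linear_combination z3' - z3
    have hb : |cv m c R ε i α z.1 - cv m c R ε j β z.1| ≤ 4 * (ε * R) * |z.1 - ξ| := by
      rw [e]
      have s1 : ∀ γ, ∀ y : ℝ, 0 ≤ y → y ≤ 2 * R * |z.1 - ξ| →
          |sg γ * (ε * y)| ≤ 2 * (ε * R) * |z.1 - ξ| := by
        intro γ y hy0 hy
        rw [abs_mul, abs_of_nonneg (mul_nonneg h.ε0.le hy0)]
        have : |sg γ| = 1 := by cases γ <;> simp [sg]
        rw [this, one_mul]
        calc ε * y ≤ ε * (2 * R * |z.1 - ξ|) := mul_le_mul_of_nonneg_left hy h.ε0.le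
          _ = 2 * (ε * R) * |z.1 - ξ| := by ring
      refine (abs_sub _ _).trans ?_
      have := s1 α _ d1.1 d1.2
      have := s1 β _ d2.1 d2.2
      linarith
    have hg := h.gap i j h1.1 h1'.1 hij
    by_contra hcon
    have hpos : 0 < |z.1 - ξ| := abs_pos.2 (sub_ne_zero.2 hcon)
    nlinarith
  have k1 : (u = vx i α j β ∨ v = vx i α j β) := by
    rcases a1 with a1 | a1
    · left
      exact h.same h1 mu hmem (by rw [hX]; exact le_antisymm (hx ▸ z1) a1)
    · right
      exact h.same h1 mv hmem (by rw [hX]; exact le_antisymm a1 (hx ▸ z2))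
  have k2 : (u' = vx i α j β ∨ v' = vx i α j β) := by
    rcases a2 with a2 | a2
    · left
      exact h.same h1' mu' hmem' (by rw [hX]; exact le_antisymm (hx ▸ z1') a2)
    · right
      exact h.same h1' mv' hmem' (by rw [hX]; exact le_antisymm a2 (hx ▸ z2'))
  refine ⟨vx i α j β, k1.imp Eq.symm Eq.symm, k2.imp Eq.symm Eq.symm, ?_⟩
  have hz2 : z.2 = m i * z.1 + c i + sg α * (ε * (R ^ 2 - z.1 ^ 2)) := by
    rw [z3]
    have : (z.1 - (XX m c R ε u).1) * ((XX m c R ε v).1 - z.1) = 0 := by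
      rcases k1 with k1 | k1
      · rw [k1, hX, hx]; simp
      · rw [k1, hX, hx]; simp
    rw [this, sub_zero]
  rw [hX]
  refine Prod.ext hx ?_
  rw [hz2, hx]
  rfl

theorem Good.cross (h : Good n m c R ε η) (hn : 2 ≤ n) (hM : AllOK n m c M) {i j : ℕ}
    {l l' : List ℕ}
    (hl : M[i]? = some l) (hl' : M[j]? = some l')
    {α β : Bool} {u v u' v' : Vtx} (huv : [u, v] <:+: ch i α l) (huv' : [u', v'] <:+: ch j β l')
    (hne : ¬ (u = u' ∧ v = v'))
    {z : Pt} (hz : z ∈ segment ℝ (XX m c R ε u) (XX m c R ε v))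
    (hz' : z ∈ segment ℝ (XX m c R ε u') (XX m c R ε v')) :
    ∃ w, (w = u ∨ w = v) ∧ (w = u' ∨ w = v') ∧ z = XX m c R ε w := by
  by_cases hij : i = j
  · subst hij
    have e : l = l' := by
      rw [hl] at hl'
      exact Option.some.inj hl'
    subst e
    have hln : l ≠ [] := by
      rcases Nat.eq_zero_or_pos i with h0 | h0
      · exact List.ne_nil_of_mem ((hM i l hl).2 1 (by omega) (by omega))
      · exact List.ne_nil_of_mem ((hM i l hl).2 0 (by omega) (by omega))
    by_cases hαβ : α = β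
    · subst hαβ
      exact h.cross_same (hM i l hl).1 huv huv' hne hz hz'
    · exact h.cross_lens (hM i l hl).1 hln hαβ huv huv' hz hz'
  · exact h.cross_diff hM hl hl' hij huv huv' hz hz'

/-- the placement is crossing-free -/
theorem Good.crossingFree (h : Good n m c R ε η) (hn : 2 ≤ n) (hM : AllOK n m c M)
    {w : List Vtx} (hw : w.IsChain (Ed M)) : IsCrossingFree w (XX m c R ε) := by
  intro a b a' b' hab hab' hne z hz hz'
  have h1 : Ed M a b := by
    have := chain_sub hw hab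
    exact (List.isChain_cons_cons.1 this).1
  have h2 : Ed M a' b' := by
    have := chain_sub hw hab'
    exact (List.isChain_cons_cons.1 this).1
  obtain ⟨i, l, hl, α, h1⟩ := h1
  obtain ⟨j, l', hl', β, h2⟩ := h2
  have n1 : ¬ (a = a' ∧ b = b') := by
    rintro ⟨rfl, rfl⟩
    exact hne rfl
  have n2 : ¬ (a = b' ∧ b = a') := by
    rintro ⟨rfl, rfl⟩
    exact hne Sym2.eq_swap
  rcases h1 with h1 | h1 <;> rcases h2 with h2 | h2
  · exact h.cross hn hM hl hl' h1 h2 n1 hz hz'
  · rw [segment_symm] at hz'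
    obtain ⟨w, w1, w2, w3⟩ := h.cross hn hM hl hl' h1 h2 n2 hz hz'
    exact ⟨w, w1, w2.symm, w3⟩
  · rw [segment_symm] at hz
    obtain ⟨w, w1, w2, w3⟩ := h.cross hn hM hl hl' h1 h2 (fun hh => n2 ⟨hh.2, hh.1⟩) hz hz'
    exact ⟨w, w1.symm, w2, w3⟩
  · rw [segment_symm] at hz hz'
    obtain ⟨w, w1, w2, w3⟩ := h.cross hn hM hl hl' h1 h2 (fun hh => n1 ⟨hh.2, hh.1⟩) hz hz'
    exact ⟨w, w1.symm, w2.symm, w3⟩

end

end Pool.Agent.Helper51.DW
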