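import Mathlib
import Pool.Prelude.Def_H_3587d628

set_option autoImplicit false

/-!
# MP_09ef41_lc: the directional walk problem and simple stretchability, definitions
-/

namespace Pool.Agent.Helper51.DW

/-- `cr p q r` is positive iff `r` lies strictly to the left of the directed line from `p` to `q`,
and negative iff `r` lies strictly to the right of it -/
def cr (p q r : ℝ × ℝ) : ℝ := (q.1 - p.1) * (r.2 - p.2) - (q.2 - p.2) * (r.1 - p.1)

section

variable {V : Type}

/-- `(w, σ)` is an instance of the directional walk problem: `w = (w_0, w_1, ...)` is a walk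
(consecutive entries are distinct), and `σ` has one label (`true` = left, `false` = right) for
every consecutive triple of `w` -/
def IsInstance (w : List V) (σ : List Bool) : Prop :=
  w.IsChain (· ≠ ·) ∧ σ.length = w.length - 2

/-- `x` maps distinct vertices of the walk to distinct points, and for every `i` the point
`x(w_{i+2})` lies strictly to the side `σ_i` of the directed line through `x(w_i)`, `x(w_{i+1})` -/
def IsRealization (w : List V) (σ : List Bool) (x : V → ℝ × ℝ) : Prop :=
  (∀ u ∈ w, ∀ v ∈ w, x u = x v → u = v) ∧
  ∀ (i : ℕ) (a b c : V), w[i]? = some a → w[i + 1]? = some b → w[i + 2]? = some c →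
    (σ[i]? = some true → 0 < cr (x a) (x b) (x c)) ∧
    (σ[i]? = some false → cr (x a) (x b) (x c) < 0)

/-- the segments of two different edges of the walk meet at most in a common endpoint -/
def IsCrossingFree (w : List V) (x : V → ℝ × ℝ) : Prop :=
  ∀ a b a' b' : V, [a, b] <:+: w → [a', b'] <:+: w → s(a, b) ≠ s(a', b') →
    ∀ z ∈ segment ℝ (x a) (x b), z ∈ segment ℝ (x a') (x b') →
      ∃ v, (v = a ∨ v = b) ∧ (v = a' ∨ v = b') ∧ z = x v

/-- the directional walk problem -/
def DirectionalWalk (V : Type) : Set (List V × List Bool) :=
  {I | IsInstance I.1 I.2 ∧ ∃ x : V → ℝ × ℝ, IsRealization I.1 I.2 x}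

/-- the crossing-free directional walk problem -/
def CrossingFreeDirectionalWalk (V : Type) : Set (List V × List Bool) :=
  {I | IsInstance I.1 I.2 ∧ ∃ x : V → ℝ × ℝ, IsRealization I.1 I.2 x ∧ IsCrossingFree I.1 x}

end

/-- Simple stretchability: `L` lists `n` local sequences, and there are `n` lines
`y = m i * x + c i` with increasing slopes such that for every `i` the `i`-th sequence
consists of the indices of the other lines, each once, in the order in which these lines cross line `i` from left to
right, the crossing points being distinct (`(c i - c j) / (m j - m i)` is the abscissa of the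
crossing point of the lines `i` and `j`) -/
def SimpleStretchability : Set (List (List ℕ)) :=
  {L | ∃ m c : ℕ → ℝ, (∀ i j, i < j → j < L.length → m i < m j) ∧
    ∀ (i : ℕ) (l : List ℕ), L[i]? = some l →
      l.Perm ((List.range L.length).erase i) ∧
      l.Pairwise fun j k => (c i - c j) / (m j - m i) < (c i - c k) / (m k - m i)}

end Pool.Agent.Helper51.DW
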