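import Pool.Agent.Helper51.DW.Place3

set_option autoImplicit false

/-!
# MP_09ef41_lc: completeness, the edges of the walk
-/

namespace Pool.Agent.Helper51.DW

/-- the edge `u v` lies on a chain -/
def Ed (L : List (List ℕ)) (u v : Vtx) : Prop :=
  ∃ i l, L[i]? = some l ∧ ∃ α, [u, v] <:+: ch i α l ∨ [v, u] <:+: ch i α l

theorem Ed.symm {L : List (List ℕ)} {u v : Vtx} (h : Ed L u v) : Ed L v u := by
  obtain ⟨i, l, hl, α, h⟩ := h
  exact ⟨i, l, hl, α, h.symm⟩

theorem quads_chain {V : Type} {E : V → V → Prop} {q : V} : ∀ (r : List (V × V)) (a0 a b : V)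
    (l : List V), (∀ x y, E x y → E y x) → E a0 a → (∀ xy ∈ (a, b) :: r, E xy.1 xy.2) →
    (a :: (r.map Prod.fst ++ [q])).IsChain E → (b :: (r.map Prod.snd ++ [q])).IsChain E →
    (q :: l).IsChain E → (a0 :: (quads q ((a, b) :: r) ++ l)).IsChain E
  | [], a0, a, b, l, hs, h0, hr, hA, hB, hl => by
    rw [quads_single]
    simp only [List.map_nil, List.nil_append, List.isChain_cons_cons] at hA hB
    simp only [List.cons_append, List.nil_append, List.isChain_cons_cons]
    exact ⟨h0, hA.1, hs _ _ hB.1, hs _ _ (hr (a, b) (by simp)), hA.1, hl⟩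
  | (a', b') :: r, a0, a, b, l, hs, h0, hr, hA, hB, hl => by
    simp only [List.map_cons, List.cons_append, List.isChain_cons_cons] at hA hB
    have ih := quads_chain r a a' b' l hs hA.1 (fun xy h => hr xy (List.mem_cons_of_mem _ h))
      hA.2 hB.2 hl
    rw [quads_cons_cons]
    simp only [List.cons_append, List.isChain_cons_cons]
    exact ⟨h0, hA.1, hr (a', b') (by simp), hs _ _ hB.1, hs _ _ (hr (a, b) (by simp)), ih⟩

theorem strip_chain {V : Type} {E : V → V → Prop} {p q : V} {r : List (V × V)}
    (hs : ∀ x y, E x y → E y x) (hr : ∀ xy ∈ r, E xy.1 xy.2)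
    (hA : (p :: (r.map Prod.fst ++ [q])).IsChain E)
    (hB : (p :: (r.map Prod.snd ++ [q])).IsChain E) : (strip p q r).IsChain E := by
  rcases r with _ | ⟨⟨a, b⟩, r⟩
  · exact List.IsChain.nil
  · simp only [List.map_cons, List.cons_append, List.isChain_cons_cons] at hA hB
    have hl : (q :: ((((a, b) :: r).map Prod.snd).reverse ++ [p])).IsChain E := by
      have e : q :: ((((a, b) :: r).map Prod.snd).reverse ++ [p]) =
          (p :: (((a, b) :: r).map Prod.snd ++ [q])).reverse := by simp
      rw [e, List.isChain_reverse]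
      simp only [List.map_cons, List.cons_append, List.isChain_cons_cons]
      refine ⟨hs _ _ hB.1, hB.2.imp fun x y h => hs _ _ h⟩
    have h := quads_chain r p a b ((((a, b) :: r).map Prod.snd).reverse ++ [p]) hs hA.1 hr hA.2
      hB.2 hl
    simp only [strip, List.cons_append, List.nil_append, List.isChain_cons_cons]
    exact ⟨hA.1, hr (a, b) (by simp), hs _ _ hB.1, h⟩

theorem isChain_infix {V : Type} (l : List V) : l.IsChain fun u v => [u, v] <:+: l := by
  rw [List.isChain_iff_forall_rel_of_append_cons_cons]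
  intro a b l1 l2 h
  exact ⟨l1, l2, by rw [h]; simp⟩

/-- `L` is a valid list of sequences -/
theorem ch_chain {L : List (List ℕ)} {i : ℕ} {l : List ℕ} (hl : L[i]? = some l) (α : Bool) :
    (ch i α l).IsChain (Ed L) :=
  (isChain_infix (ch i α l)).imp fun _ _ h => ⟨i, l, hl, α, Or.inl h⟩

theorem pair_infix {j i : ℕ} {l : List ℕ} (h : i ∈ l) (β : Bool) :
    [vx j β i (decide (j ≤ i)), vx j β i (!(decide (j ≤ i)))] <:+: ch j β l := by
  obtain ⟨l1, l2, rfl⟩ := List.append_of_mem h
  refine ⟨pp j :: vs j β l1, vs j β l2 ++ [qq j], ?_⟩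
  simp [ch, vs]

theorem rung_ed {L : List (List ℕ)} {i j : ℕ} {l' : List ℕ} (hij : i ≠ j)
    (hl' : L[j]? = some l') (hi : i ∈ l') (β : Bool) : Ed L (vx i true j β) (vx i false j β) := by
  refine ⟨j, l', hl', β, ?_⟩
  have h := pair_infix (j := j) hi β
  rw [vx_comm hij true β, vx_comm hij false β]
  cases hd : decide (j ≤ i)
  · rw [hd] at h
    exact Or.inr h
  · rw [hd] at h
    exact Or.inl h

theorem link_chain {L : List (List ℕ)} {i : ℕ} {l l' : List ℕ} (hl : L[i]? = some l)
    (hl' : L[i + 1]? = some l') (h1 : i + 1 ∈ l) (h2 : i ∈ l') :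
    (pp i :: (link i l l' ++ [pp (i + 1)])).IsChain (Ed L) := by
  obtain ⟨l2, hs⟩ := takeWhile_split h1
  obtain ⟨l2', hs'⟩ := takeWhile_split h2
  have e1 : ch i true l = (pp i :: (vs i true (l.takeWhile (· ≠ i + 1)) ++
      [vx i true (i + 1) true, vx i true (i + 1) false])) ++ (vs i true l2 ++ [qq i]) := by
    rw [ch]
    conv_lhs => rw [hs]
    rw [vs_append]
    simp only [vs, List.flatMap_cons, decide_eq_true (show i ≤ i + 1 by omega), Bool.not_true]
    simp
  have e2 : ch (i + 1) false l' = (pp (i + 1) :: (vs (i + 1) false (l'.takeWhile (· ≠ i)) ++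
      [vx i false (i + 1) false, vx i true (i + 1) false])) ++ (vs (i + 1) false l2' ++ [qq (i + 1)]) := by
    rw [ch]
    conv_lhs => rw [hs']
    rw [vs_append, vx_comm (show i ≠ i + 1 by omega) false false,
      vx_comm (show i ≠ i + 1 by omega) true false]
    simp only [vs, List.flatMap_cons, decide_eq_false (show ¬ i + 1 ≤ i by omega), Bool.not_false]
    simp
  have c1 := ch_chain hl true
  have c2 := ch_chain hl' false
  rw [e1] at c1
  rw [e2] at c2
  have d1 := c1.left_of_append
  have d2 := c2.left_of_append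
  have d3 : (pp (i + 1) :: (vs (i + 1) false (l'.takeWhile (· ≠ i)) ++
      [vx i false (i + 1) false, vx i true (i + 1) false])).reverse.IsChain (Ed L) := by
    rw [List.isChain_reverse]
    exact d2.imp fun _ _ h => h.symm
  have e3 : pp i :: (link i l l' ++ [pp (i + 1)]) =
      (pp i :: (vs i true (l.takeWhile (· ≠ i + 1)) ++ [vx i true (i + 1) true])) ++
        vx i true (i + 1) false :: (vx i false (i + 1) false ::
          ((vs (i + 1) false (l'.takeWhile (· ≠ i))).reverse ++ [pp (i + 1)])) := by
    simp only [link, rungs_fst, rungs_snd]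
    simp
  rw [e3, List.isChain_split]
  constructor
  · simpa using d1
  · simpa using d3

theorem walk_chain {n : ℕ} {M : List (List ℕ)} (hM : ∀ i < n, ∃ l, M[i]? = some l)
    (hM' : ∀ i l, M[i]? = some l → ∀ j < n, j ≠ i → j ∈ l)
    (hM'' : ∀ i l, M[i]? = some l → ∀ j ∈ l, j < n ∧ j ≠ i) (hn : 2 ≤ n) :
    ∀ (L : List (List ℕ)) (k : ℕ), k + L.length ≤ n →
    (∀ i l, L[i]? = some l → M[k + i]? = some l) → (walk k L).IsChain (Ed M)
  | [], _, _, _ => List.IsChain.nil
  | l :: L, k, hk, hL => by
    simp only [List.length_cons] at hk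
    have hl := hL 0 l rfl
    rw [Nat.add_zero] at hl
    have hstrip : (strip (pp k) (qq k) (rungs k l)).IsChain (Ed M) := by
      refine strip_chain (fun _ _ h => h.symm) ?_ ?_ ?_
      · intro ab hab
        rw [rungs, List.mem_flatMap] at hab
        obtain ⟨j, hj, hab⟩ := hab
        obtain ⟨h1, h2⟩ := hM'' k l hl j hj
        obtain ⟨l', hl'⟩ := hM j h1
        simp only [List.mem_cons, List.not_mem_nil, or_false] at hab
        rcases hab with rfl | rfl
        · exact rung_ed h2.symm hl' (hM' j l' hl' k (by omega) h2.symm) _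
        · exact rung_ed h2.symm hl' (hM' j l' hl' k (by omega) h2.symm) _
      · rw [rungs_fst]
        exact ch_chain hl true
      · rw [rungs_snd]
        exact ch_chain hl false
    match L, hk, hL with
    | [], _, _ =>
      have e : walk k [l] = strip (pp k) (qq k) (rungs k l) := by
        rw [walk_cons]
        simp [walk]
      rw [e]
      exact hstrip
    | l' :: L, hk, hL =>
      simp only [List.length_cons] at hk
      have ih := walk_chain hM hM' hM'' hn (l' :: L) (k + 1)
        (by simp only [List.length_cons]; omega)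
        (fun i l hl => by
          have := hL (i + 1) l (by simpa using hl)
          rwa [show k + (i + 1) = k + 1 + i by ring] at this)
      have hl' := hL 1 l' rfl
      have h3 : k + 1 ∈ l := hM' k l hl (k + 1) (by omega) (by omega)
      have h4 : k ∈ l' := hM' (k + 1) l' hl' k (by omega) (by omega)
      obtain ⟨a, b, r, hr⟩ := rungs_ne (i := k) (List.ne_nil_of_mem h3)
      obtain ⟨a', b', r', hr'⟩ := rungs_ne (i := k + 1) (List.ne_nil_of_mem h4)
      have hlink := link_chain hl hl' h3 h4
      obtain ⟨S, hS⟩ := (strip_ends (pp k) (qq k) a b r).1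
      obtain ⟨T, hT⟩ := (strip_ends (pp (k + 1)) (qq (k + 1)) a' b' r').2
      have hw : ∃ T', walk (k + 1) (l' :: L) = pp (k + 1) :: T' := by
        rw [walk_cons, hr', hT]
        exact ⟨_, rfl⟩
      obtain ⟨T', hT'⟩ := hw
      rw [walk_cons]
      rw [hr, hS] at hstrip ⊢
      rw [hT'] at ih ⊢
      have e1 : S ++ [b, pp k] ++ (link k l l' ++ pp (k + 1) :: T') =
          (S ++ [b]) ++ pp k :: (link k l l' ++ pp (k + 1) :: T') := by simp
      show (S ++ [b, pp k] ++ (link k l l' ++ pp (k + 1) :: T')).IsChain (Ed M)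
      rw [e1, List.isChain_split]
      constructor
      · simpa using hstrip
      · have e2 : pp k :: (link k l l' ++ pp (k + 1) :: T') =
            (pp k :: link k l l') ++ pp (k + 1) :: T' := by simp
        rw [e2, List.isChain_split]
        constructor
        · simpa using hlink
        · exact ih

theorem mem_of_isChain {V : Type} {E : V → V → Prop} : ∀ {l : List V}, l.IsChain E →
    2 ≤ l.length → ∀ v ∈ l, ∃ u, E u v ∨ E v u
  | [], _, h, _, _ => by simp at h
  | [_], _, h, _, _ => by simp at h
  | a :: b :: l, hc, _, v, hv => by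
    rw [List.isChain_cons_cons] at hc
    rcases List.mem_cons.1 hv with rfl | hv
    · exact ⟨b, Or.inr hc.1⟩
    · rcases l with _ | ⟨d, l⟩
      · rw [List.mem_singleton] at hv
        subst hv
        exact ⟨a, Or.inl hc.1⟩
      · exact mem_of_isChain hc.2 (by simp) v hv

end Pool.Agent.Helper51.DW
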