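import Pool.Agent.Helper51.DW.Defs

set_option autoImplicit false

/-!
# MP_09ef41_lc: the walk of an arrangement
-/

namespace Pool.Agent.Helper51.DW

/-- names of the vertices -/
abbrev Vtx : Type := List Bool × List Bool

/-- name of the upper (`α = true`) or lower chain of the `i`-th lens -/
def nm (i : ℕ) (α : Bool) : List Bool := α :: List.replicate i true

/-- the crossing of the chains `(i, α)` and `(j, β)` -/
def vx (i : ℕ) (α : Bool) (j : ℕ) (β : Bool) : Vtx :=
  if i ≤ j then (nm i α, nm j β) else (nm j β, nm i α)

/-- left end of the `i`-th lens -/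
def pp (i : ℕ) : Vtx := vx i true i true

/-- right end of the `i`-th lens -/
def qq (i : ℕ) : Vtx := vx i false i false

/-- the crossings of the chain `(j, β)` with the two chains of the `i`-th lens -/
def rung (i j : ℕ) (β : Bool) : Vtx × Vtx := (vx i true j β, vx i false j β)

/-- the rungs of the `i`-th lens, from left to right -/
def rungs (i : ℕ) (l : List ℕ) : List (Vtx × Vtx) :=
  l.flatMap fun j => [rung i j (decide (i ≤ j)), rung i j (!(decide (i ≤ j)))]

/-- the quadrilaterals between consecutive rungs, and the last triangle -/
def quads {V : Type} (q : V) : List (V × V) → List V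
  | [] => []
  | (a, b) :: r =>
    (match r with
      | [] => [a, q, b, a, q]
      | (a', b') :: _ => [a, a', b', b, a]) ++ quads q r

/-- the walk of a lens with left end `p`, right end `q` and rungs `r` -/
def strip {V : Type} (p q : V) : List (V × V) → List V
  | [] => []
  | (a, b) :: r => [p, a, b, p] ++ (quads q ((a, b) :: r) ++
      ((((a, b) :: r).map Prod.snd).reverse ++ [p]))

/-- the way from the `i`-th lens to the next one -/
def link (i : ℕ) (l l' : List ℕ) : List Vtx :=
  (rungs i (l.takeWhile (· ≠ i + 1))).map Prod.fst ++
    ([vx i true (i + 1) true, vx i true (i + 1) false, vx i false (i + 1) false] ++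
      ((rungs (i + 1) (l'.takeWhile (· ≠ i))).map Prod.snd).reverse)

/-- the whole walk -/
def walk : ℕ → List (List ℕ) → List Vtx
  | _, [] => []
  | i, l :: L =>
    strip (pp i) (qq i) (rungs i l) ++
      ((match L with
        | [] => []
        | l' :: _ => link i l l') ++ walk (i + 1) L)

/-- every sequence contains all other indices exactly once -/
def Valid (L : List (List ℕ)) : Prop :=
  ∀ i l, L[i]? = some l → l.length + 1 = L.length ∧ ∀ j < L.length, j ≠ i → j ∈ l

end Pool.Agent.Helper51.DW
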