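import Pool.Agent.Helper22.Lists
import Pool.Agent.Helper51.DW.Walk

set_option autoImplicit false

/-!
# MP_09ef41_lc: polynomial time, tools
-/

namespace Pool.Agent.Helper51.DW

open Turing Function N487b59b3 N68a2faeb Pool.Agent.Helper22

section

variable {α β γ δ : Type} [N487b59b3 α] [N487b59b3 β] [N487b59b3 γ] [N487b59b3 δ]

/-- flat map over the nonempty suffixes -/
def sfx {β γ δ : Type} (h : γ × List β → List δ) (c : γ) : List β → List δ
  | [] => []
  | b :: l => h (c, b :: l) ++ sfx h c l

omit [N487b59b3 β] [N487b59b3 γ] [N487b59b3 δ] in
theorem loopList_sfx (h : γ × List β → List δ) (l : List β) (c : γ) (acc : List δ) :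
    Helper22.loopList (fun p : List β × (γ × List δ) => (p.2.1, p.2.2 ++ h (p.2.1, p.1))) l (c, acc) =
      (c, acc ++ sfx h c l) := by
  induction l generalizing acc with
  | nil => simp [Helper22.loopList, sfx]
  | cons b l ih =>
    rw [Helper22.loopList, ih]
    simp [sfx]

theorem FP.sfx {h : γ × List β → List δ} (hh : FP h) :
    FP fun p : γ × List β => DW.sfx h p.1 p.2 := by
  obtain ⟨B, hB, hBm, hBle⟩ := hh.bound
  have h1 : FP fun p : List β × (γ × List δ) =>
      Helper22.loopList (fun p : List β × (γ × List δ) => (p.2.1, p.2.2 ++ h (p.2.1, p.1))) p.1 p.2 := by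
    refine FP.loopList ?_ (B := fun n => 2 * n + 1 + (n + n * B (2 * n + 1 + n))) (by fun_prop) ?_
    · have h2 : FP fun p : List β × (γ × List δ) => h (p.2.1, p.1) := hh.comp (by fun_prop)
      fun_prop
    · rintro l ⟨c, acc⟩ i hi
      have key : ∀ i ≤ l.length, ∃ r, (fun p : List β × (γ × List δ) =>
          (p.1.tail, (p.2.1, p.2.2 ++ h (p.2.1, p.1))))^[i] (l, (c, acc)) = (l.drop i, (c, r)) ∧
          sz r ≤ sz acc + i * B (sz (c, l)) := by
        intro i
        induction i with
        | zero => intro _; exact ⟨acc, rfl, by omega⟩
        | succ i ih =>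
          intro hi
          obtain ⟨r, h2, h3⟩ := ih (by omega)
          refine ⟨r ++ h (c, l.drop i), ?_, ?_⟩
          · rw [Function.iterate_succ_apply', h2]
            simp
          · rw [sz_append]
            have h4 : sz (h (c, l.drop i)) ≤ B (sz (c, l)) := by
              refine (hBle _).trans (hBm ?_)
              have := sz_drop l i
              simp only [sz_pair]
              omega
            have h5 : (i + 1) * B (sz (c, l)) = i * B (sz (c, l)) + B (sz (c, l)) := by ring
            omega
      obtain ⟨r, h2, h3⟩ := key i hi
      rw [h2]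
      have h6 : i ≤ sz (l, (c, acc)) := by
        have := length_le_sz l
        simp only [sz_pair]
        omega
      have h7 : B (sz (c, l)) ≤ B (2 * sz (l, (c, acc)) + 1 + sz (l, (c, acc))) := by
        refine hBm ?_
        simp only [sz_pair]
        omega
      have h8 := Nat.mul_le_mul h6 h7
      have h9 : 2 * sz c + 1 + sz acc ≤ sz (l, (c, acc)) := by
        simp only [sz_pair]
        omega
      rw [sz_pair]
      generalize sz (l, (c, acc)) = N at *
      omega
  have h2 := FP.snd.comp (h1.comp (FP.pair (f := fun p : γ × List β => p.2) (by fun_prop)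
    (FP.pair (f := fun p : γ × List β => p.1) (by fun_prop) (FP.const ([] : List δ)))))
  simp only [loopList_sfx, List.nil_append] at h2
  exact h2

theorem FP.sfx' {h : γ × List β → List δ} (hh : FP h) {f : α → γ} {g : α → List β} (hf : FP f)
    (hg : FP g) : FP fun a => DW.sfx h (f a) (g a) := (FP.sfx hh).comp (hf.pair hg)

omit [N487b59b3 β] in
theorem foldl_rev (l acc : List β) : l.foldl (fun s b => b :: s) acc = l.reverse ++ acc := by
  induction l generalizing acc with
  | nil => rfl
  | cons b l ih => simp [ih]

theorem sz_reverse (l : List β) : sz l.reverse = sz l := by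
  induction l with
  | nil => rfl
  | cons b l ih => rw [List.reverse_cons, sz_append, ih]; simp; omega

@[fun_prop]
theorem FP.reverse [Inhabited β] {f : α → List β} (hf : FP f) : FP fun a => (f a).reverse := by
  have h : FP fun p : List β × List β => p.1.foldl (fun s b => b :: s) p.2 := by
    refine FP.foldl (g := fun (s : List β) (b : β) => b :: s) (by fun_prop)
      (B := fun n => n) (by fun_prop) ?_
    intro l a
    rw [foldl_rev, sz_append, sz_reverse]
  have h2 := h.comp (hf.pair (FP.const ([] : List β)))
  simp only [foldl_rev, List.append_nil] at h2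
  exact h2

/-- equality of lengths -/
def eqU (a b : List Bool) : Bool := decide (a.length ≤ b.length) && decide (b.length ≤ a.length)

theorem eqU_iff (a b : List Bool) : eqU a b = decide (a.length = b.length) := by
  unfold eqU
  rw [Bool.eq_iff_iff]
  simp
  omega

@[fun_prop]
theorem FP.eqU {f g : α → List Bool} (hf : FP f) (hg : FP g) : FP fun a => DW.eqU (f a) (g a) := by
  unfold DW.eqU
  fun_prop

/-- one step of `takeWhile` -/
def twStep (s : List Bool × (Bool × List (List Bool))) (b : List Bool) :
    List Bool × (Bool × List (List Bool)) :=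
  if s.2.1 then s else if DW.eqU s.1 b then (s.1, (true, s.2.2)) else (s.1, (false, s.2.2 ++ [b]))

theorem tw_true (a : List Bool) (l acc : List (List Bool)) :
    l.foldl twStep (a, (true, acc)) = (a, (true, acc)) := by
  induction l with
  | nil => rfl
  | cons b l ih => simpa [twStep] using ih

theorem tw_fold (a : List Bool) (l acc : List (List Bool)) :
    (l.foldl twStep (a, (false, acc))).2.2 = acc ++ l.takeWhile (fun b => !(eqU a b)) ∧
    (l.foldl twStep (a, (false, acc))).1 = a := by
  induction l generalizing acc with
  | nil => simp
  | cons b l ih =>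
    rw [List.foldl_cons]
    by_cases h : eqU a b = true
    · have h1 : twStep (a, (false, acc)) b = (a, (true, acc)) := by simp [twStep, h]
      rw [h1, tw_true, List.takeWhile_cons_of_neg (by simp [h])]
      simp
    · have h1 : twStep (a, (false, acc)) b = (a, (false, acc ++ [b])) := by simp [twStep, h]
      rw [h1, List.takeWhile_cons_of_pos (by simp [h])]
      have := ih (acc ++ [b])
      simpa using this

theorem tw_size (l : List (List Bool)) (s : List Bool × (Bool × List (List Bool))) :
    sz (l.foldl twStep s) ≤ sz l + sz s := by
  induction l generalizing s with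
  | nil => simp
  | cons b l ih =>
    rw [List.foldl_cons]
    refine (ih _).trans ?_
    have : sz (twStep s b) ≤ 2 * sz b + 1 + sz s := by
      obtain ⟨a, d, acc⟩ := s
      unfold twStep
      split_ifs
      · omega
      · simp only [sz_pair, sz_bool]
        omega
      · simp only [sz_pair, sz_bool, sz_append, sz_cons, sz_nil]
        omega
    rw [sz_cons]
    omega

theorem FP.tw {f : α → List Bool} {g : α → List (List Bool)} (hf : FP f) (hg : FP g) :
    FP fun a => (g a).takeWhile (fun b => !(DW.eqU (f a) b)) := by
  have h : FP fun p : List (List Bool) × (List Bool × (Bool × List (List Bool))) =>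
      p.1.foldl twStep p.2 := by
    refine FP.foldl (g := twStep) ?_ (B := fun n => n) (by fun_prop) tw_size
    unfold twStep
    have : FP fun p : (List Bool × (Bool × List (List Bool))) × List Bool => [p.2] :=
      FP.snd.cons (FP.const [])
    fun_prop
  have h2 := (h.comp (hg.pair (hf.pair (FP.const (false, ([] : List (List Bool))))))).snd'.snd'
  refine (congrArg FP (funext fun a => ?_)).mp h2
  have := (tw_fold (f a) (g a) []).1
  simpa using this

end

end Pool.Agent.Helper51.DW
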