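import Pool.Agent.Helper51.DW.Main

set_option autoImplicit false

/-!
# MP_09ef41_lc: the values of the reduction are instances
-/

namespace Pool.Agent.Helper51.DW

open Turing Function N487b59b3 N68a2faeb Pool.Agent.Helper22

theorem nm_inj {i j : ℕ} {α β : Bool} (h : nm i α = nm j β) : i = j ∧ α = β := by
  have h1 := nm_len i α
  have h2 := nm_head i α
  rw [h] at h1 h2
  rw [nm_len] at h1
  rw [nm_head] at h2
  exact ⟨h1.symm, h2.symm⟩

theorem vx_inj {i j k : ℕ} {α β γ : Bool} (hj : j ≠ i) (_hk : k ≠ i)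
    (h : vx i α j β = vx i α k γ) : j = k ∧ β = γ := by
  unfold vx at h
  split_ifs at h with h1 h2 h2
  · exact nm_inj (Prod.mk.inj h).2
  · exact absurd (nm_inj (Prod.mk.inj h).2).1 hj
  · exact absurd (nm_inj (Prod.mk.inj h).1).1 hj
  · exact nm_inj (Prod.mk.inj h).1

theorem pp_ne_vx {i j : ℕ} {α β : Bool} (hj : j ≠ i) (γ : Bool) :
    vx i γ i γ ≠ vx i α j β := by
  intro h
  unfold vx at h
  rw [if_pos le_rfl] at h
  split_ifs at h with h2
  · exact hj (nm_inj (Prod.mk.inj h).2).1.symm
  · exact hj (nm_inj (Prod.mk.inj h).1).1.symm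

theorem pp_ne_qq (i : ℕ) : pp i ≠ qq i := by
  intro h
  unfold pp qq vx at h
  rw [if_pos le_rfl, if_pos le_rfl] at h
  exact absurd (nm_inj (Prod.mk.inj h).2).2 (by simp)

theorem vs_nodup {i : ℕ} {l : List ℕ} (hl : l.Nodup) (hi : ∀ j ∈ l, j ≠ i) (α : Bool) :
    (vs i α l).Nodup := by
  rw [vs, List.nodup_flatMap]
  constructor
  · intro j hj
    simp only [List.nodup_cons, List.mem_singleton, List.not_mem_nil, not_false_eq_true,
      List.nodup_nil, and_true]
    intro h
    have := (vx_inj (hi j hj) (hi j hj) h).2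
    cases hd : decide (i ≤ j) <;> simp [hd] at this
  · refine List.Pairwise.imp_of_mem ?_ hl
    intro j k hj hk hjk v hv hv'
    simp only [List.mem_cons, List.not_mem_nil, or_false] at hv hv'
    rcases hv with rfl | rfl <;> rcases hv' with hv' | hv' <;>
      exact hjk (vx_inj (hi j hj) (hi k hk) hv').1

theorem ch_nodup {i : ℕ} {l : List ℕ} (hl : l.Nodup) (hi : ∀ j ∈ l, j ≠ i) (α : Bool) :
    (ch i α l).Nodup := by
  have h1 := vs_nodup hl hi α
  have h2 : ∀ γ, vx i γ i γ ∉ vs i α l := by
    intro γ h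
    obtain ⟨j, hj, β, h⟩ := mem_vs h
    exact pp_ne_vx (hi j hj) γ h
  rw [ch, List.nodup_cons, List.nodup_append]
  refine ⟨?_, h1, List.nodup_singleton _, ?_⟩
  · rw [List.mem_append, List.mem_singleton]
    rintro (h | h)
    · exact h2 true h
    · exact pp_ne_qq i h
  · intro a ha b hb
    rw [List.mem_singleton] at hb
    subst hb
    rintro rfl
    exact h2 false ha

theorem walk_ne {L : List (List ℕ)} (hv : Valid L) (hn : 2 ≤ L.length) :
    (walk 0 L).IsChain (· ≠ ·) := by
  have hmem : ∀ i l, L[i]? = some l → l.Nodup ∧ ∀ j ∈ l, j < L.length ∧ j ≠ i := by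
    intro i l hl
    have hp := perm_of_valid hv hl
    refine ⟨hp.nodup_iff.2 (List.nodup_range.erase i), ?_⟩
    intro j hj
    have := hp.mem_iff.1 hj
    rw [List.nodup_range.mem_erase_iff, List.mem_range] at this
    exact ⟨this.2, this.1⟩
  have hch : (walk 0 L).IsChain (Ed L) := by
    refine walk_chain (n := L.length) ?_ ?_ ?_ hn L 0 (by omega) ?_
    · intro i hi
      exact ⟨L[i], List.getElem?_eq_getElem hi⟩
    · intro i l hl
      exact (hv i l hl).2
    · intro i l hl
      exact (hmem i l hl).2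
    · intro i l hl
      rwa [Nat.zero_add]
  refine hch.imp ?_
  rintro u v ⟨i, l, hl, α, hu⟩ rfl
  obtain ⟨h1, h2⟩ := hmem i l hl
  have h3 := ch_nodup h1 (fun j hj => (h2 j hj).2) α
  have h4 : ∀ w : Vtx, ¬ [w, w] <:+: ch i α l := by
    intro w hw
    have := h3.sublist hw.sublist
    simp at this
  exact hu.elim (h4 u) (h4 u)

theorem red_instance (x : List (List (List Bool))) : IsInstance (red x).1 (red x).2 := by
  by_cases hv : validU x = true
  · have hv' := (validU_iff x).1 hv
    by_cases h2 : 2 ≤ x.length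
    · have hr : red x = (walk 0 (x.map lens), (walk 0 (x.map lens)).tail.tail.map fun _ => false) := by
        unfold red
        have h3 : x.tail.isEmpty = false := by
          rcases x with _ | ⟨a, _ | ⟨b, x⟩⟩
          · simp at h2
          · simp at h2
          · rfl
        have h4 : walkU x = walk 0 (x.map lens) := walk_eq x x 0 (by omega)
        rw [if_pos hv, h3, h4]
        simp
      rw [hr]
      refine ⟨walk_ne hv' (by rwa [List.length_map]), ?_⟩
      simp only [List.length_map, List.length_tail]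
      omega
    · have hr : red x = ([], []) := by
        unfold red
        have h3 : x.tail.isEmpty = true := by
          rcases x with _ | ⟨a, _ | ⟨b, x⟩⟩
          · rfl
          · rfl
          · simp at h2
        rw [if_pos hv, h3]
        rfl
      rw [hr]
      exact ⟨List.IsChain.nil, rfl⟩
  · have h3 : red x = ([pp 0, qq 0, pp 0], [false]) := by
      unfold red
      rw [if_neg hv]
    rw [h3]
    refine ⟨?_, rfl⟩
    simp only [List.isChain_cons_cons]
    exact ⟨pp_ne_qq 0, (pp_ne_qq 0).symm, List.isChain_singleton _⟩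

theorem main' : ∃ f : List (List (List Bool)) → List Vtx × List Bool,
    IsPolyTime f ∧ (∀ x, IsInstance (f x).1 (f x).2 ∧ ∀ b ∈ (f x).2, b = false) ∧
    ∀ x, (x.map (List.map List.length) ∈ SimpleStretchability ↔
        f x ∈ CrossingFreeDirectionalWalk Vtx) ∧
      (x.map (List.map List.length) ∈ SimpleStretchability ↔ f x ∈ DirectionalWalk Vtx) := by
  refine ⟨red, (isPolyTime_iff _).2 FP.red, fun x => ⟨red_instance x, red_labels x⟩, fun x => ?_⟩
  obtain ⟨h1, h2⟩ := red_correct x
  exact ⟨⟨h1, fun h => h2 (cf_sub h)⟩, ⟨fun h => cf_sub (h1 h), h2⟩⟩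

end Pool.Agent.Helper51.DW
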