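import Pool.Agent.Helper51.DW.Sound2

set_option autoImplicit false

/-!
# MP_09ef41_lc: completeness, the geometry of one lens
-/

namespace Pool.Agent.Helper51.DW

/-- sign -/
def sg (α : Bool) : ℝ := if α then 1 else -1

theorem sg_true : sg true = 1 := rfl
theorem sg_false : sg false = -1 := rfl

/-- the point lies on the chain `α` of the lens of `y = m x + c` -/
def On (m c R ε : ℝ) (α : Bool) (P : Pt) : Prop :=
  P.2 = m * P.1 + c + sg α * (ε * (R ^ 2 - P.1 ^ 2)) ∧ -R ≤ P.1 ∧ P.1 ≤ R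

section

variable {m c R ε : ℝ} {a b d : Pt}

theorem F1 (hε : 0 < ε) (ha : On m c R ε true a) (hb : On m c R ε true b)
    (hd : On m c R ε true d) (h1 : a.1 < b.1) (h2 : b.1 < d.1) : cr a b d < 0 := by
  have e : cr a b d = -(ε * ((b.1 - a.1) * (d.1 - a.1) * (d.1 - b.1))) := by
    unfold cr
    rw [ha.1, hb.1, hd.1, sg_true]
    ring
  rw [e]
  have h3 := mul_pos hε (mul_pos (mul_pos (sub_pos.2 h1) (sub_pos.2 (h1.trans h2))) (sub_pos.2 h2))
  linarith

theorem F2 (hε : 0 < ε) (ha : On m c R ε false a) (hb : On m c R ε false b)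
    (hd : On m c R ε false d) (h1 : a.1 < b.1) (h2 : b.1 < d.1) : cr d b a < 0 := by
  have e : cr d b a = -(ε * ((b.1 - a.1) * (d.1 - a.1) * (d.1 - b.1))) := by
    unfold cr
    rw [ha.1, hb.1, hd.1, sg_false]
    ring
  rw [e]
  have h3 := mul_pos hε (mul_pos (mul_pos (sub_pos.2 h1) (sub_pos.2 (h1.trans h2))) (sub_pos.2 h2))
  linarith

theorem F_aux {s s' t : ℝ} (hs : -R ≤ s) (hs' : s ≤ R) (ht : -R ≤ s') (ht' : s' ≤ R)
    (h1 : -R < t) (h2 : t < R) : t ^ 2 + t * (s + s') - s * s' < 2 * R ^ 2 := by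
  nlinarith [mul_nonneg (sub_nonneg.2 hs) (sub_nonneg.2 ht), mul_nonneg (sub_nonneg.2 hs')
    (sub_nonneg.2 ht'), mul_nonneg (sub_nonneg.2 hs) (sub_nonneg.2 ht'),
    mul_nonneg (sub_nonneg.2 hs') (sub_nonneg.2 ht), mul_pos (sub_pos.2 h1) (sub_pos.2 h2)]

theorem F3 (hε : 0 < ε) (ha : On m c R ε true a) (hb : On m c R ε true b)
    (hd : On m c R ε false d) (h1 : a.1 < b.1) (h2 : -R < d.1) (h3 : d.1 < R) :
    cr a b d < 0 := by
  have e : cr a b d = -(ε * ((b.1 - a.1) *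
      (2 * R ^ 2 - (d.1 ^ 2 + d.1 * (a.1 + b.1) - a.1 * b.1)))) := by
    unfold cr
    rw [ha.1, hb.1, hd.1, sg_true, sg_false]
    ring
  rw [e]
  have h4 := F_aux ha.2.1 ha.2.2 hb.2.1 hb.2.2 h2 h3
  have h5 := mul_pos hε (mul_pos (sub_pos.2 h1) (sub_pos.2 h4))
  linarith

theorem F4 (hε : 0 < ε) (ha : On m c R ε false a) (hb : On m c R ε false b)
    (hd : On m c R ε true d) (h1 : a.1 < b.1) (h2 : -R < d.1) (h3 : d.1 < R) :
    cr b a d < 0 := by
  have e : cr b a d = -(ε * ((b.1 - a.1) *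
      (2 * R ^ 2 - (d.1 ^ 2 + d.1 * (a.1 + b.1) - a.1 * b.1)))) := by
    unfold cr
    rw [ha.1, hb.1, hd.1, sg_true, sg_false]
    ring
  rw [e]
  have h4 := F_aux ha.2.1 ha.2.2 hb.2.1 hb.2.2 h2 h3
  have h5 := mul_pos hε (mul_pos (sub_pos.2 h1) (sub_pos.2 h4))
  linarith

/-- the abscissa increases -/
def Inc (a b : Pt) : Prop := a.1 < b.1

/-- right turns along the upper chain -/
theorem RT_up (hε : 0 < ε) : ∀ l : List Pt, (∀ a ∈ l, On m c R ε true a) → l.IsChain Inc → RT l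
  | [], _, _ => trivial
  | [_], _, _ => trivial
  | [_, _], _, _ => trivial
  | a :: b :: d :: l, h, hl => by
    rw [List.isChain_cons_cons] at hl
    refine ⟨F1 hε (h a (by simp)) (h b (by simp)) (h d (by simp)) hl.1
      (List.isChain_cons_cons.1 hl.2).1, RT_up hε (b :: d :: l) (fun x hx => h x (List.mem_cons_of_mem _ hx)) hl.2⟩

/-- right turns along the lower chain -/
theorem RT_low (hε : 0 < ε) : ∀ l : List Pt, (∀ a ∈ l, On m c R ε false a) → l.IsChain Inc →
    RT l.reverse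
  | [], _, _ => trivial
  | [_], _, _ => trivial
  | [_, _], _, _ => trivial
  | a :: b :: d :: l, h, hl => by
    rw [List.isChain_cons_cons] at hl
    have ih := RT_low hε (b :: d :: l) (fun x hx => h x (List.mem_cons_of_mem _ hx)) hl.2
    have e : (a :: b :: d :: l).reverse = l.reverse ++ d :: b :: [a] := by simp
    have e' : (b :: d :: l).reverse = l.reverse ++ [d, b] := by simp
    rw [e, RT_glue, ← e']
    refine ⟨ih, F2 hε (h a (by simp)) (h b (by simp)) (h d (by simp)) hl.1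
      (List.isChain_cons_cons.1 hl.2).1, trivial⟩

/-- right turns of the strip of a lens -/
theorem con_of_lens (hε : 0 < ε) {q : Pt} (hq : On m c R ε true q) (hq' : On m c R ε false q) :
    ∀ (r : List (Pt × Pt)) (a0 b0 : Pt), On m c R ε true a0 → On m c R ε false b0 →
    (∀ ab ∈ r, On m c R ε true ab.1 ∧ On m c R ε false ab.2 ∧ -R < ab.1.1 ∧ ab.1.1 < R ∧
      -R < ab.2.1 ∧ ab.2.1 < R) →
    (a0 :: (r.map Prod.fst ++ [q])).IsChain Inc → (b0 :: (r.map Prod.snd ++ [q])).IsChain Inc →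
    Con q a0 b0 r
  | [], _, _, _, _, _, _, _ => trivial
  | [(a, b)], a0, b0, h1, h2, h, h3, h4 => by
    obtain ⟨ha, hb, ha1, ha2, hb1, hb2⟩ := h (a, b) (by simp)
    simp only [List.map_cons, List.map_nil, List.cons_append, List.nil_append,
      List.isChain_cons_cons] at h3 h4
    refine ⟨⟨F1 hε h1 ha hq h3.1 h3.2.1, F2 hε h2 hb hq' h4.1 h4.2.1,
      F3 hε ha hq hb h3.2.1 hb1 hb2⟩, trivial⟩
  | (a, b) :: (a', b') :: r, a0, b0, h1, h2, h, h3, h4 => by
    obtain ⟨ha, hb, ha1, ha2, hb1, hb2⟩ := h (a, b) (by simp)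
    obtain ⟨ha', hb', ha1', ha2', hb1', hb2'⟩ := h (a', b') (by simp)
    simp only [List.map_cons, List.cons_append, List.isChain_cons_cons] at h3 h4
    have ih := con_of_lens hε hq hq' ((a', b') :: r) a b ha hb
      (fun x hx => h x (List.mem_cons_of_mem _ hx))
      (by simp only [List.map_cons, List.cons_append, List.isChain_cons_cons]; exact h3.2)
      (by simp only [List.map_cons, List.cons_append, List.isChain_cons_cons]; exact h4.2)
    refine ⟨⟨F1 hε h1 ha ha' h3.1 h3.2.1, F2 hε h2 hb hb' h4.1 h4.2.1,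
      F3 hε ha ha' hb' h3.2.1 hb1' hb2', ?_, F4 hε hb hb' ha h4.2.1 ha1 ha2, ?_⟩, ih⟩
    · have := F4 hε hb hb' ha' h4.2.1 ha1' ha2'
      rw [← cr_cyc]
      exact this
    · have := F3 hε ha ha' hb h3.2.1 hb1 hb2
      rw [← cr_cyc]
      exact this

end

end Pool.Agent.Helper51.DW
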