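import Pool.Agent.Helper51.DW.Map
import Pool.Agent.Helper51.DW.Complete

set_option autoImplicit false

/-!
# MP_09ef41_lc: main theorem
-/

namespace Pool.Agent.Helper51.DW

open Turing Function N487b59b3 N68a2faeb Pool.Agent.Helper22

theorem sfx_nil_iff {β γ δ : Type} (h : γ × List β → List δ) (c : γ) (l : List β) :
    sfx h c l = [] ↔ ∀ k < l.length, h (c, l.drop k) = [] := by
  induction l with
  | nil => simp [sfx]
  | cons b l ih =>
    rw [sfx, List.append_eq_nil_iff, ih]
    constructor
    · rintro ⟨h1, h2⟩ k hk
      rcases k with _ | k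
      · exact h1
      · exact h2 k (by simpa using hk)
    · intro h1
      exact ⟨h1 0 (by simp), fun k hk => h1 (k + 1) (by simpa using hk)⟩

theorem headD_drop {β : Type} (l : List β) (k : ℕ) (hk : k < l.length) (d : β) :
    (l.drop k).headD d = l[k] := by
  rw [List.drop_eq_getElem_cons hk]
  rfl

theorem memU_iff (j : List Bool) (l : List (List Bool)) : memU j l = true ↔ j.length ∈ lens l := by
  unfold memU
  rw [Bool.not_eq_true', ← Bool.not_eq_true, List.isEmpty_iff, sfx_nil_iff]
  push Not
  constructor
  · rintro ⟨k, hk, h⟩
    rw [hm] at h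
    simp only [headD_drop l k hk] at h
    by_cases he : eqU j l[k] = true
    · rw [eqU_iff, decide_eq_true_eq] at he
      exact List.mem_map.2 ⟨l[k], List.getElem_mem hk, he.symm⟩
    · rw [if_neg he] at h
      exact absurd rfl h
  · intro h
    obtain ⟨a, ha, he⟩ := List.mem_map.1 h
    obtain ⟨k, hk, rfl⟩ := List.getElem_of_mem ha
    refine ⟨k, hk, ?_⟩
    rw [hm]
    simp only [headD_drop l k hk]
    rw [if_pos (by rw [eqU_iff, decide_eq_true_eq]; exact he.symm)]
    simp

theorem ix_drop (x : List (List (List Bool))) {k : ℕ} (hk : k < x.length) :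
    (ix (x, x.drop k)).length = k := by
  rw [ix_length, List.length_drop]
  omega

theorem hj_iff (x : List (List (List Bool))) (i : List Bool) (l : List (List Bool)) {j : ℕ}
    (hj' : j < x.length) : hj ((x, (i, l)), x.drop j) = [] ↔ (j ≠ i.length → j ∈ lens l) := by
  rw [hj]
  by_cases h1 : j = i.length
  · have : eqU (ix (x, x.drop j)) i = true := by
      rw [eqU_iff, ix_drop x hj', decide_eq_true_eq]
      exact h1
    simp only [this, if_true, true_iff]
    exact fun h => absurd h1 h
  · have : ¬ (eqU (ix (x, x.drop j)) i = true) := by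
      rw [eqU_iff, ix_drop x hj', decide_eq_true_eq]
      exact h1
    simp only [this]
    by_cases h2 : memU (ix (x, x.drop j)) l = true
    · rw [h2]
      rw [memU_iff, ix_drop x hj'] at h2
      simp [h2]
    · rw [Bool.not_eq_true] at h2
      rw [h2]
      rw [← Bool.not_eq_true, memU_iff, ix_drop x hj'] at h2
      simp [h1, h2]

theorem validU_iff (x : List (List (List Bool))) : validU x = true ↔ Valid (x.map lens) := by
  unfold validU
  rw [List.isEmpty_iff, sfx_nil_iff]
  have key : ∀ k, (hk : k < x.length) → (hv (x, x.drop k) = [] ↔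
      (x[k].length + 1 = x.length ∧ ∀ j < x.length, j ≠ k → j ∈ lens x[k])) := by
    intro k hk
    rw [hv]
    simp only [headD_drop x k hk, List.length_tail]
    by_cases h1 : x[k].length + 1 = x.length
    · rw [if_pos (by simp; omega), sfx_nil_iff]
      constructor
      · intro h2
        refine ⟨h1, fun j hj hjk => ?_⟩
        have h3 := (hj_iff x _ _ hj).1 (h2 j hj)
        rw [ix_drop x hk] at h3
        exact h3 hjk
      · rintro ⟨-, h2⟩ j hj
        rw [hj_iff x _ _ hj, ix_drop x hk]
        exact h2 j hj
    · rw [if_neg (by simp; omega)]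
      simp [h1]
  constructor
  · intro h i l hl
    rw [List.getElem?_map, Option.map_eq_some_iff] at hl
    obtain ⟨a, ha, rfl⟩ := hl
    obtain ⟨hi, rfl⟩ := List.getElem?_eq_some_iff.1 ha
    simpa using (key i hi).1 (h i hi)
  · intro h k hk
    rw [key k hk]
    have := h k (lens x[k]) (by simp [hk])
    simpa using this

theorem rt_iff {V : Type} (X : V → Pt) : ∀ w : List V, RT (w.map X) ↔
    ∀ (i : ℕ) (a b c : V), w[i]? = some a → w[i + 1]? = some b → w[i + 2]? = some c →
      cr (X a) (X b) (X c) < 0
  | [] => by simp [RT]
  | [a] => by simp [RT]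
  | [a, b] => by simp [RT]
  | a :: b :: c :: l => by
    have ih := rt_iff X (b :: c :: l)
    rw [List.map_cons, List.map_cons, List.map_cons, RT_cons, ← List.map_cons, ← List.map_cons, ih]
    constructor
    · rintro ⟨h1, h2⟩ i a' b' c' ha hb hc
      rcases i with _ | i
      · simp only [List.getElem?_cons_zero, List.getElem?_cons_succ, Option.some.injEq,
          zero_add] at ha hb hc
        subst ha hb hc
        exact h1
      · exact h2 i a' b' c' (by simpa using ha) (by simpa using hb) (by simpa using hc)
    · intro h
      exact ⟨h 0 a b c rfl rfl rfl, fun i a' b' c' ha hb hc =>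
        h (i + 1) a' b' c' (by simpa using ha) (by simpa using hb) (by simpa using hc)⟩

theorem real_iff {V : Type} (X : V → Pt) (w : List V) :
    IsRealization w (w.tail.tail.map fun _ => false) X ↔
      (∀ u ∈ w, ∀ v ∈ w, X u = X v → u = v) ∧ RT (w.map X) := by
  rw [IsRealization, rt_iff]
  refine and_congr_right fun _ => ?_
  constructor
  · intro h i a b c ha hb hc
    refine (h i a b c ha hb hc).2 ?_
    have : (w.tail.tail)[i]? = some c := by
      rw [List.getElem?_tail, List.getElem?_tail]
      exact hc
    rw [List.getElem?_map, this]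
    rfl
  · intro h i a b c ha hb hc
    refine ⟨fun h1 => ?_, fun _ => h i a b c ha hb hc⟩
    rw [List.getElem?_map, Option.map_eq_some_iff] at h1
    obtain ⟨_, _, h1⟩ := h1
    exact absurd h1 (by simp)

theorem red_labels (x : List (List (List Bool))) : ∀ b ∈ (red x).2, b = false := by
  intro b hb
  unfold red at hb
  split_ifs at hb
  · simp at hb
  · simp only [List.mem_map] at hb
    obtain ⟨_, _, h⟩ := hb
    exact h.symm
  · simpa using hb

theorem red_invalid {x : List (List (List Bool))} (h : ¬ validU x = true) :
    red x ∉ DirectionalWalk Vtx := by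
  rintro ⟨-, X, -, h2⟩
  have h3 : red x = ([pp 0, qq 0, pp 0], [false]) := by
    unfold red
    rw [if_neg h]
  rw [h3] at h2
  have h4 := (h2 0 (pp 0) (qq 0) (pp 0) rfl rfl rfl).2 rfl
  unfold cr at h4
  nlinarith

theorem cf_sub {V : Type} {I : List V × List Bool} (h : I ∈ CrossingFreeDirectionalWalk V) :
    I ∈ DirectionalWalk V := ⟨h.1, h.2.choose, h.2.choose_spec.1⟩

theorem red_correct (x : List (List (List Bool))) :
    (x.map lens ∈ SimpleStretchability → red x ∈ CrossingFreeDirectionalWalk Vtx) ∧
    (red x ∈ DirectionalWalk Vtx → x.map lens ∈ SimpleStretchability) := by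
  by_cases hv : validU x = true
  · have hv' := (validU_iff x).1 hv
    by_cases h2 : 2 ≤ x.length
    · have hr : red x = (walk 0 (x.map lens), (walk 0 (x.map lens)).tail.tail.map fun _ => false) := by
        unfold red
        have h3 : x.tail.isEmpty = false := by
          rcases x with _ | ⟨a, _ | ⟨b, x⟩⟩
          · simp at h2
          · simp at h2
          · rfl
        have h4 : walkU x = walk 0 (x.map lens) := walk_eq x x 0 (by omega)
        rw [if_pos hv, h3, h4]
        simp
      have hlen : 2 ≤ (x.map lens).length := by rwa [List.length_map]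
      constructor
      · intro hs
        obtain ⟨X, h3, h4, h5, h6⟩ := complete hs hlen
        rw [hr]
        refine ⟨⟨h3, ?_⟩, X, (real_iff X _).2 ⟨h4, h5⟩, h6⟩
        simp only [List.length_map, List.length_tail]
        omega
      · intro hd
        rw [hr] at hd
        obtain ⟨-, X, h3⟩ := hd
        exact sound hv' hlen ((real_iff X _).1 h3).2
    · have hr : red x = ([], []) := by
        unfold red
        have h3 : x.tail.isEmpty = true := by
          rcases x with _ | ⟨a, _ | ⟨b, x⟩⟩
          · rfl
          · rfl
          · simp at h2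
        rw [if_pos hv, h3]
        rfl
      constructor
      · intro _
        rw [hr]
        refine ⟨⟨List.IsChain.nil, rfl⟩, fun _ => (0, 0), ⟨by simp, by simp⟩, ?_⟩
        intro a b a' b' h
        have := h.length_le
        simp at this
      · intro _
        refine ⟨fun i => i, fun _ => 0, ?_, ?_⟩
        · intro i j hij hj
          show (i : ℝ) < (j : ℝ)
          exact_mod_cast hij
        · intro i l hl
          refine ⟨perm_of_valid hv' hl, ?_⟩
          have h3 := (hv' i l hl).1
          rw [List.length_map] at h3
          have : l = [] := List.eq_nil_of_length_eq_zero (by omega)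
          rw [this]
          exact List.Pairwise.nil
  · constructor
    · intro hs
      exact absurd ((validU_iff x).2 (valid_of_stretch hs)) hv
    · intro hd
      exact absurd hd (red_invalid hv)

theorem main : ∃ f : List (List (List Bool)) → List Vtx × List Bool,
    IsPolyTime f ∧ (∀ x, ∀ b ∈ (f x).2, b = false) ∧
    ∀ x, (x.map (List.map List.length) ∈ SimpleStretchability ↔
        f x ∈ CrossingFreeDirectionalWalk Vtx) ∧
      (x.map (List.map List.length) ∈ SimpleStretchability ↔ f x ∈ DirectionalWalk Vtx) := by
  refine ⟨red, (isPolyTime_iff _).2 FP.red, red_labels, fun x => ?_⟩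
  obtain ⟨h1, h2⟩ := red_correct x
  exact ⟨⟨h1, fun h => h2 (cf_sub h)⟩, ⟨fun h => cf_sub (h1 h), h2⟩⟩

end Pool.Agent.Helper51.DW
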