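import Pool.Agent.Helper51.DW.Fp

set_option autoImplicit false

/-!
# MP_09ef41_lc: the reduction
-/

namespace Pool.Agent.Helper51.DW

open Turing Function N487b59b3 N68a2faeb Pool.Agent.Helper22

/-- name of a chain -/
def nmU (i : List Bool) (α : Bool) : List Bool := α :: un i.length

/-- name of a crossing -/
def vxU (i : List Bool) (α : Bool) (j : List Bool) (β : Bool) : Vtx :=
  if decide (i.length ≤ j.length) then (nmU i α, nmU j β) else (nmU j β, nmU i α)

/-- a rung -/
def rungU (i j : List Bool) (β : Bool) : Vtx × Vtx := (vxU i true j β, vxU i false j β)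

/-- the two rungs of a line -/
def hr (p : List Bool × List (List Bool)) : List (Vtx × Vtx) :=
  [rungU p.1 (p.2.headD []) (decide (p.1.length ≤ (p.2.headD []).length)),
    rungU p.1 (p.2.headD []) (!(decide (p.1.length ≤ (p.2.headD []).length)))]

/-- the rungs -/
def rungsU (i : List Bool) (l : List (List Bool)) : List (Vtx × Vtx) := sfx hr i l

/-- a quadrilateral -/
def hq (p : Vtx × List (Vtx × Vtx)) : List Vtx :=
  if p.2.tail.isEmpty then
    [(p.2.headD default).1, p.1, (p.2.headD default).2, (p.2.headD default).1, p.1]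
  else [(p.2.headD default).1, (p.2.tail.headD default).1, (p.2.tail.headD default).2,
    (p.2.headD default).2, (p.2.headD default).1]

/-- a strip -/
def stripU (p q : Vtx) (r : List (Vtx × Vtx)) : List Vtx :=
  if r.isEmpty then [] else
    [p, (r.headD default).1, (r.headD default).2, p] ++ (sfx hq q r ++
      ((r.map Prod.snd).reverse ++ [p]))

/-- a link -/
def linkU (i : List Bool) (l l' : List (List Bool)) : List Vtx :=
  (rungsU i (l.takeWhile (fun b => !(eqU (true :: i) b)))).map Prod.fst ++
    ([vxU i true (true :: i) true, vxU i true (true :: i) false, vxU i false (true :: i) false] ++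
      ((rungsU (true :: i) (l'.takeWhile (fun b => !(eqU i b)))).map Prod.snd).reverse)

/-- present index -/
def ix (p : List (List (List Bool)) × List (List (List Bool))) : List Bool :=
  un (p.1.drop p.2.length).length

/-- a part of the walk -/
def hw (p : List (List (List Bool)) × List (List (List Bool))) : List Vtx :=
  stripU (vxU (ix p) true (ix p) true) (vxU (ix p) false (ix p) false)
      (rungsU (ix p) (p.2.headD [])) ++
    (if p.2.tail.isEmpty then [] else linkU (ix p) (p.2.headD []) (p.2.tail.headD []))

/-- the walk -/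
def walkU (x : List (List (List Bool))) : List Vtx := sfx hw x x

/-- search -/
def hm (p : List Bool × List (List Bool)) : List Bool :=
  if eqU p.1 (p.2.headD []) then [true] else []

/-- membership -/
def memU (j : List Bool) (l : List (List Bool)) : Bool := !(sfx hm j l).isEmpty

/-- test of one index -/
def hj (p : (List (List (List Bool)) × (List Bool × List (List Bool))) × List (List (List Bool))) :
    List Bool :=
  if eqU (ix (p.1.1, p.2)) p.1.2.1 then [] else
    if memU (ix (p.1.1, p.2)) p.1.2.2 then [] else [true]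

/-- test of one sequence -/
def hv (p : List (List (List Bool)) × List (List (List Bool))) : List Bool :=
  if decide ((p.2.headD []).length ≤ p.1.tail.length) &&
      decide (p.1.tail.length ≤ (p.2.headD []).length) then
    sfx hj (p.1, (ix p, p.2.headD [])) p.1
  else [true]

/-- validity -/
def validU (x : List (List (List Bool))) : Bool := (sfx hv x x).isEmpty

/-- the reduction -/
def red (x : List (List (List Bool))) : List Vtx × List Bool :=
  if validU x then
    (if x.tail.isEmpty then ([], []) else
      (walkU x, (walkU x).tail.tail.map fun _ => false))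
  else ([pp 0, qq 0, pp 0], [false])

section FPs

variable {α : Type} [N487b59b3 α]

@[fun_prop]
theorem FP.nmU {f : α → List Bool} {g : α → Bool} (hf : FP f) (hg : FP g) :
    FP fun a => DW.nmU (f a) (g a) := by
  unfold DW.nmU
  exact hg.cons (FP.un_length hf)

@[fun_prop]
theorem FP.vxU {f f' : α → List Bool} {g g' : α → Bool} (hf : FP f) (hg : FP g) (hf' : FP f')
    (hg' : FP g') : FP fun a => DW.vxU (f a) (g a) (f' a) (g' a) := by
  unfold DW.vxU
  exact FP.ite (FP.length_le hf hf') ((FP.nmU hf hg).pair (FP.nmU hf' hg'))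
    ((FP.nmU hf' hg').pair (FP.nmU hf hg))

@[fun_prop]
theorem FP.rungU {f f' : α → List Bool} {g' : α → Bool} (hf : FP f) (hf' : FP f')
    (hg' : FP g') : FP fun a => DW.rungU (f a) (f' a) (g' a) := by
  unfold DW.rungU
  exact (FP.vxU hf (FP.const _) hf' hg').pair (FP.vxU hf (FP.const _) hf' hg')

theorem FP.hr : FP DW.hr := by
  unfold DW.hr
  have h1 : FP fun p : List Bool × List (List Bool) => p.2.headD [] := FP.headD FP.snd []
  have h2 := FP.length_le (FP.fst (α := List Bool) (β := List (List Bool))) h1
  exact (FP.rungU FP.fst h1 h2).cons ((FP.rungU FP.fst h1 h2.not).cons (FP.const []))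

@[fun_prop]
theorem FP.rungsU {f : α → List Bool} {g : α → List (List Bool)} (hf : FP f) (hg : FP g) :
    FP fun a => DW.rungsU (f a) (g a) := FP.sfx' FP.hr hf hg

theorem FP.hq : FP DW.hq := by
  unfold DW.hq
  have h1 : FP fun p : Vtx × List (Vtx × Vtx) => p.2.headD default := FP.headD FP.snd _
  have h2 : FP fun p : Vtx × List (Vtx × Vtx) => p.2.tail.headD default :=
    FP.headD (FP.tail FP.snd) _
  have h3 : FP fun p : Vtx × List (Vtx × Vtx) => p.1 := FP.fst
  refine FP.ite (FP.isEmpty (FP.tail FP.snd)) ?_ ?_
  · exact h1.fst'.cons (h3.cons (h1.snd'.cons (h1.fst'.cons (h3.cons (FP.const [])))))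
  · exact h1.fst'.cons (h2.fst'.cons (h2.snd'.cons (h1.snd'.cons (h1.fst'.cons (FP.const [])))))

theorem FP.stripU {f g : α → Vtx} {h : α → List (Vtx × Vtx)} (hf : FP f) (hg : FP g) (hh : FP h) :
    FP fun a => DW.stripU (f a) (g a) (h a) := by
  unfold DW.stripU
  have h1 : FP fun a => (h a).headD default := FP.headD hh _
  refine FP.ite (FP.isEmpty hh) (FP.const []) ?_
  refine FP.append (hf.cons (h1.fst'.cons (h1.snd'.cons (hf.cons (FP.const []))))) ?_
  refine FP.append (FP.sfx' FP.hq hg hh) ?_
  exact FP.append (FP.reverse (FP.map FP.snd hh)) (hf.cons (FP.const []))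

theorem FP.linkU {f : α → List Bool} {g h : α → List (List Bool)} (hf : FP f) (hg : FP g)
    (hh : FP h) : FP fun a => DW.linkU (f a) (g a) (h a) := by
  unfold DW.linkU
  have h1 : FP fun a => true :: f a := (FP.const true).cons hf
  refine FP.append (FP.map FP.fst (FP.rungsU hf (FP.tw h1 hg))) ?_
  refine FP.append ?_ (FP.reverse (FP.map FP.snd (FP.rungsU h1 (FP.tw hf hh))))
  exact (FP.vxU hf (FP.const _) h1 (FP.const _)).cons ((FP.vxU hf (FP.const _) h1
    (FP.const _)).cons ((FP.vxU hf (FP.const _) h1 (FP.const _)).cons (FP.const [])))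

theorem FP.ix : FP DW.ix := by
  unfold DW.ix
  exact FP.un_length (FP.drop FP.fst FP.snd)

theorem FP.hw : FP DW.hw := by
  unfold DW.hw
  have h1 : FP fun p : List (List (List Bool)) × List (List (List Bool)) => p.2.headD [] :=
    FP.headD FP.snd _
  have h2 : FP fun p : List (List (List Bool)) × List (List (List Bool)) => p.2.tail.headD [] :=
    FP.headD (FP.tail FP.snd) _
  refine FP.append (FP.stripU (FP.vxU FP.ix (FP.const _) FP.ix (FP.const _))
    (FP.vxU FP.ix (FP.const _) FP.ix (FP.const _)) (FP.rungsU FP.ix h1)) ?_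
  exact FP.ite (FP.isEmpty (FP.tail FP.snd)) (FP.const []) (FP.linkU FP.ix h1 h2)

theorem FP.walkU : FP DW.walkU := FP.sfx' FP.hw FP.id FP.id

theorem FP.hm : FP DW.hm := by
  unfold DW.hm
  exact FP.ite (FP.eqU FP.fst (FP.headD FP.snd _)) (FP.const _) (FP.const _)

theorem FP.memU {f : α → List Bool} {g : α → List (List Bool)} (hf : FP f) (hg : FP g) :
    FP fun a => DW.memU (f a) (g a) := by
  unfold DW.memU
  exact (FP.isEmpty (FP.sfx' FP.hm hf hg)).not

theorem FP.hj : FP DW.hj := by
  unfold DW.hj
  have h1 : FP fun p : (List (List (List Bool)) × (List Bool × List (List Bool))) ×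
      List (List (List Bool)) => DW.ix (p.1.1, p.2) := FP.ix.comp (FP.fst.fst'.pair FP.snd)
  exact FP.ite (FP.eqU h1 FP.fst.snd'.fst') (FP.const _)
    (FP.ite (FP.memU h1 FP.fst.snd'.snd') (FP.const _) (FP.const _))

theorem FP.hv : FP DW.hv := by
  unfold DW.hv
  have h1 : FP fun p : List (List (List Bool)) × List (List (List Bool)) => p.2.headD [] :=
    FP.headD FP.snd _
  have h2 : FP fun p : List (List (List Bool)) × List (List (List Bool)) => p.1.tail :=
    FP.tail FP.fst
  exact FP.ite ((FP.length_le h1 h2).and (FP.length_le h2 h1))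
    (FP.sfx' FP.hj (FP.fst.pair (FP.ix.pair h1)) FP.fst) (FP.const _)

theorem FP.red : FP DW.red := by
  unfold DW.red DW.validU
  refine FP.ite (FP.isEmpty (FP.sfx' FP.hv FP.id FP.id)) ?_ (FP.const _)
  refine FP.ite (FP.isEmpty (FP.tail FP.id)) (FP.const _) (FP.walkU.pair ?_)
  exact FP.map (f := fun _ : Vtx => false) (FP.const _) (FP.tail (FP.tail FP.walkU))

end FPs

/-! ## Correctness -/

/-- indices -/
abbrev lens (l : List (List Bool)) : List ℕ := l.map List.length

theorem nmU_eq (i : List Bool) (α : Bool) : nmU i α = nm i.length α := rfl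

theorem vxU_eq (i : List Bool) (α : Bool) (j : List Bool) (β : Bool) :
    vxU i α j β = vx i.length α j.length β := by
  unfold vxU vx
  simp only [nmU_eq, decide_eq_true_eq]

theorem rungsU_eq (i : List Bool) (l : List (List Bool)) :
    rungsU i l = rungs i.length (lens l) := by
  induction l with
  | nil => rfl
  | cons j l ih =>
    have h1 : rungsU i (j :: l) = hr (i, j :: l) ++ rungsU i l := rfl
    rw [h1, ih]
    simp only [hr, rungU, vxU_eq, List.headD_cons]
    rfl

theorem sfx_hq (q : Vtx) : ∀ r : List (Vtx × Vtx), sfx hq q r = quads q r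
  | [] => rfl
  | [(a, b)] => by simp [sfx, hq, quads]
  | (a, b) :: (a', b') :: r => by
    rw [quads_cons_cons', sfx, sfx_hq q ((a', b') :: r)]
    simp [hq]
where
  quads_cons_cons' {V : Type} {q a b a' b' : V} {r : List (V × V)} :
    quads q ((a, b) :: (a', b') :: r) = a :: a' :: b' :: b :: a :: quads q ((a', b') :: r) := rfl

theorem stripU_eq (p q : Vtx) (r : List (Vtx × Vtx)) : stripU p q r = strip p q r := by
  rcases r with _ | ⟨⟨a, b⟩, r⟩
  · rfl
  · simp only [stripU, List.isEmpty_cons, Bool.false_eq_true, if_false, List.headD_cons, sfx_hq]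
    rfl

theorem tw_eq (i : List Bool) (l : List (List Bool)) :
    lens (l.takeWhile (fun b => !(eqU i b))) = (lens l).takeWhile (· ≠ i.length) := by
  unfold lens
  rw [List.takeWhile_map]
  have h : (fun b => !(eqU i b)) = ((fun x => decide (x ≠ i.length)) ∘ List.length) := by
    funext b
    rw [eqU_iff]
    simp [eq_comm]
  rw [h]

theorem linkU_eq (i : List Bool) (l l' : List (List Bool)) :
    linkU i l l' = link i.length (lens l) (lens l') := by
  unfold linkU link
  simp only [rungsU_eq, vxU_eq, tw_eq, List.length_cons]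

theorem ix_length (x s : List (List (List Bool))) : (ix (x, s)).length = x.length - s.length := by
  simp [ix]

theorem walk_cons_cons (k : ℕ) (l l' : List ℕ) (L : List (List ℕ)) :
    walk k (l :: l' :: L) = strip (pp k) (qq k) (rungs k l) ++
      (link k l l' ++ walk (k + 1) (l' :: L)) := rfl

theorem walk_eq (x : List (List (List Bool))) : ∀ (s : List (List (List Bool))) (k : ℕ),
    k + s.length = x.length → sfx hw x s = walk k (s.map lens)
  | [], _, _ => rfl
  | [l], k, hk => by
    have h1 : (ix (x, [l])).length = k := by rw [ix_length]; simp only [List.length_singleton] at hk ⊢; omega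
    rw [sfx, sfx, hw]
    simp only [List.headD_cons, List.tail_cons, List.isEmpty_nil, if_true, stripU_eq, rungsU_eq,
      vxU_eq, h1]
    simp [walk, pp, qq]
  | l :: l' :: s, k, hk => by
    have h1 : (ix (x, l :: l' :: s)).length = k := by
      rw [ix_length]; simp only [List.length_cons] at hk ⊢; omega
    have ih := walk_eq x (l' :: s) (k + 1) (by simp only [List.length_cons] at hk ⊢; omega)
    rw [sfx, ih, hw]
    simp only [List.headD_cons, List.tail_cons, List.isEmpty_cons, Bool.false_eq_true, if_false,
      stripU_eq, rungsU_eq, vxU_eq, linkU_eq, h1]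
    show _ = walk k (lens l :: lens l' :: s.map lens)
    rw [walk_cons_cons, List.append_assoc]
    rfl

end Pool.Agent.Helper51.DW
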