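import Pool.Agent.Helper51.DW.Lens

set_option autoImplicit false

/-!
# MP_09ef41_lc: completeness, placing the vertices
-/

namespace Pool.Agent.Helper51.DW

/-- abscissa of the crossing of two lines -/
noncomputable def xx (m c : ℕ → ℝ) (i j : ℕ) : ℝ := (c i - c j) / (m j - m i)

/-- good parameters for an arrangement -/
structure Good (n : ℕ) (m c : ℕ → ℝ) (R ε η : ℝ) : Prop where
  R0 : 0 < R
  ε0 : 0 < ε
  mono : ∀ i j, i < j → j < n → m i < m j
  gap : ∀ i j, i < n → j < n → i ≠ j → 8 * (ε * R) < |m i - m j|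
  abs : ∀ i j, i < n → j < n → i ≠ j → |xx m c i j| < R
  disp : ∀ i j, i < n → j < n → i ≠ j → 4 * (ε * R ^ 2) < η * |m i - m j|
  sep : ∀ i j k, i < n → j < n → k < n → xx m c i j < xx m c i k →
    2 * η ≤ xx m c i k - xx m c i j

/-- the chain `(i, α)` -/
noncomputable def cv (m c : ℕ → ℝ) (R ε : ℝ) (i : ℕ) (α : Bool) (x : ℝ) : ℝ :=
  m i * x + c i + sg α * (ε * (R ^ 2 - x ^ 2))

/-- abscissa of the crossing of two chains -/
noncomputable def xi (m c : ℕ → ℝ) (R ε : ℝ) (i : ℕ) (α : Bool) (j : ℕ) (β : Bool) : ℝ := by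
  classical
  exact if h : ∃ x, (-R ≤ x ∧ x ≤ R) ∧ cv m c R ε i α x = cv m c R ε j β x then h.choose else 0

section

variable {n : ℕ} {m c : ℕ → ℝ} {R ε η : ℝ}

theorem sg_abs (α β : Bool) : |sg α - sg β| ≤ 2 := by
  cases α <;> cases β <;> norm_num [sg]

theorem Good.ne (h : Good n m c R ε η) {i j : ℕ} (hi : i < n) (hj : j < n) (hij : i ≠ j) :
    m j - m i ≠ 0 := by
  rcases lt_or_gt_of_ne hij with h1 | h1
  · have := h.mono i j h1 hj; linarith
  · have := h.mono j i h1 hi; linarith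

/-- difference of two chains -/
theorem Good.diff (h : Good n m c R ε η) {i j : ℕ} (hi : i < n) (hj : j < n) (hij : i ≠ j)
    (α β : Bool) (x : ℝ) : cv m c R ε i α x - cv m c R ε j β x =
      (m i - m j) * (x - xx m c i j) + (sg α - sg β) * (ε * (R ^ 2 - x ^ 2)) := by
  have e : xx m c i j * (m j - m i) = c i - c j := div_mul_cancel₀ _ (h.ne hi hj hij)
  unfold cv
  linear_combination -e

theorem Good.lip_aux (h : Good n m c R ε η) (α β : Bool) {x y : ℝ}
    (hx : -R ≤ x ∧ x ≤ R) (hy : -R ≤ y ∧ y ≤ R) :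
    |(sg α - sg β) * (ε * (x + y))| ≤ 4 * (ε * R) := by
  have h1 : |ε * (x + y)| ≤ ε * (2 * R) := by
    rw [abs_mul, abs_of_pos h.ε0]
    refine mul_le_mul_of_nonneg_left ?_ h.ε0.le
    rw [abs_le]
    constructor <;> linarith
  rw [abs_mul]
  calc |sg α - sg β| * |ε * (x + y)| ≤ 2 * (ε * (2 * R)) :=
        mul_le_mul (sg_abs α β) h1 (abs_nonneg _) (by norm_num)
    _ = 4 * (ε * R) := by ring

/-- two chains cross transversally -/
theorem Good.lip (h : Good n m c R ε η) {i j : ℕ} (hi : i < n) (hj : j < n) (hij : i ≠ j)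
    (α β : Bool) {x y : ℝ} (hx : -R ≤ x ∧ x ≤ R) (hy : -R ≤ y ∧ y ≤ R) :
    |x - y| * |m i - m j| ≤
      2 * |(cv m c R ε i α x - cv m c R ε j β x) - (cv m c R ε i α y - cv m c R ε j β y)| := by
  have e : (cv m c R ε i α x - cv m c R ε j β x) - (cv m c R ε i α y - cv m c R ε j β y) =
      (x - y) * ((m i - m j) - (sg α - sg β) * (ε * (x + y))) := by
    unfold cv; ring
  rw [e, abs_mul]
  have h1 := h.lip_aux α β hx hy
  have h2 := h.gap i j hi hj hij
  have h3 : |m i - m j| - |(sg α - sg β) * (ε * (x + y))| ≤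
      |(m i - m j) - (sg α - sg β) * (ε * (x + y))| := abs_sub_abs_le_abs_sub _ _
  nlinarith [abs_nonneg (x - y)]

/-- two chains cross transversally, with signs -/
theorem Good.dec (h : Good n m c R ε η) {i j : ℕ} (hij : i < j) (hj : j < n)
    (α β : Bool) {x y : ℝ} (hx : -R ≤ x ∧ x ≤ R) (hy : -R ≤ y ∧ y ≤ R) (hxy : x ≤ y) :
    cv m c R ε i α y - cv m c R ε j β y ≤ cv m c R ε i α x - cv m c R ε j β x := by
  have e : (cv m c R ε i α x - cv m c R ε j β x) - (cv m c R ε i α y - cv m c R ε j β y) =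
      (x - y) * ((m i - m j) - (sg α - sg β) * (ε * (x + y))) := by
    unfold cv; ring
  have h1 := h.lip_aux α β hx hy
  have h2 := h.gap i j (by omega) hj (by omega)
  have h3 := h.mono i j hij hj
  rw [abs_of_neg (by linarith)] at h2
  have h4 := abs_le.1 h1
  have h5 : (m i - m j) - (sg α - sg β) * (ε * (x + y)) ≤ 0 := by
    have := mul_pos h.ε0 h.R0
    linarith
  have := mul_nonneg_of_nonpos_of_nonpos (sub_nonpos.2 hxy) h5
  linarith

theorem Good.xi_spec (h : Good n m c R ε η) {i j : ℕ} (hi : i < n) (hj : j < n) (hij : i ≠ j)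
    (α β : Bool) : (-R ≤ xi m c R ε i α j β ∧ xi m c R ε i α j β ≤ R) ∧
      cv m c R ε i α (xi m c R ε i α j β) = cv m c R ε j β (xi m c R ε i α j β) := by
  have hex : ∃ x, (-R ≤ x ∧ x ≤ R) ∧ cv m c R ε i α x = cv m c R ε j β x := by
    have hc : Continuous fun x => cv m c R ε i α x - cv m c R ε j β x := by
      unfold cv; fun_prop
    have h0 := intermediate_value_uIcc (a := -R) (b := R) hc.continuousOn
    have h1 : (0 : ℝ) ∈ Set.uIcc (cv m c R ε i α (-R) - cv m c R ε j β (-R))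
        (cv m c R ε i α R - cv m c R ε j β R) := by
      rw [h.diff hi hj hij, h.diff hi hj hij]
      have e1 : R ^ 2 - (-R) ^ 2 = 0 := by ring
      have e2 : R ^ 2 - R ^ 2 = 0 := by ring
      rw [e1, e2, mul_zero, mul_zero, add_zero, add_zero]
      have h2 := abs_lt.1 (h.abs i j hi hj hij)
      rw [Set.mem_uIcc]
      rcases lt_or_gt_of_ne hij with h3 | h3
      · right
        have h4 := h.mono i j h3 hj
        constructor <;> nlinarith
      · left
        have h4 := h.mono j i h3 hi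
        constructor <;> nlinarith
    obtain ⟨x, hx, hx0⟩ := h0 h1
    rw [Set.uIcc_of_le (by linarith [h.R0])] at hx
    exact ⟨x, hx, sub_eq_zero.1 hx0⟩
  have e : xi m c R ε i α j β = hex.choose := by
    unfold xi
    rw [dif_pos hex]
  rw [e]
  exact hex.choose_spec

theorem Good.uniq (h : Good n m c R ε η) {i j : ℕ} (hi : i < n) (hj : j < n) (hij : i ≠ j)
    (α β : Bool) {x y : ℝ} (hx : -R ≤ x ∧ x ≤ R) (hy : -R ≤ y ∧ y ≤ R)
    (ex : cv m c R ε i α x = cv m c R ε j β x) (ey : cv m c R ε i α y = cv m c R ε j β y) :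
    x = y := by
  have h1 := h.lip hi hj hij α β hx hy
  rw [ex, ey, sub_self, sub_self, sub_zero, abs_zero, mul_zero] at h1
  have h2 : 0 < |m i - m j| := by
    have := h.gap i j hi hj hij
    have := mul_pos h.ε0 h.R0
    linarith
  have h3 : |x - y| ≤ 0 := by
    by_contra hcon
    push Not at hcon
    have := mul_pos hcon h2
    linarith
  exact sub_eq_zero.1 (abs_nonpos_iff.1 h3)

theorem Good.xi_comm (h : Good n m c R ε η) {i j : ℕ} (hi : i < n) (hj : j < n) (hij : i ≠ j)
    (α β : Bool) : xi m c R ε i α j β = xi m c R ε j β i α :=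
  h.uniq hi hj hij α β (h.xi_spec hi hj hij α β).1 (h.xi_spec hj hi hij.symm β α).1
    (h.xi_spec hi hj hij α β).2 (h.xi_spec hj hi hij.symm β α).2.symm

theorem Good.xi_disp (h : Good n m c R ε η) {i j : ℕ} (hi : i < n) (hj : j < n) (hij : i ≠ j)
    (α β : Bool) : |xi m c R ε i α j β - xx m c i j| < η := by
  obtain ⟨h1, h2⟩ := h.xi_spec hi hj hij α β
  have h3 := abs_lt.1 (h.abs i j hi hj hij)
  have h4 := h.lip hi hj hij α β h1 ⟨h3.1.le, h3.2.le⟩
  rw [h2, sub_self, h.diff hi hj hij, sub_self, mul_zero, zero_add, zero_sub, abs_neg, abs_mul]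
    at h4
  have h5 : |ε * (R ^ 2 - xx m c i j ^ 2)| ≤ ε * R ^ 2 := by
    rw [abs_mul, abs_of_pos h.ε0]
    refine mul_le_mul_of_nonneg_left ?_ h.ε0.le
    rw [abs_le]
    constructor
    · nlinarith [sq_nonneg R]
    · nlinarith [sq_nonneg (xx m c i j)]
  have h6 : |sg α - sg β| * |ε * (R ^ 2 - xx m c i j ^ 2)| ≤ 2 * (ε * R ^ 2) :=
    mul_le_mul (sg_abs α β) h5 (abs_nonneg _) (by norm_num)
  have h7 := h.disp i j hi hj hij
  have h8 : 0 < |m i - m j| := by
    have := h.gap i j hi hj hij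
    have := mul_pos h.ε0 h.R0
    linarith
  have h9 : |xi m c R ε i α j β - xx m c i j| * |m i - m j| < η * |m i - m j| := by linarith
  exact lt_of_mul_lt_mul_right h9 h8.le

theorem Good.xi_abs (h : Good n m c R ε η) {i j : ℕ} (hi : i < n) (hj : j < n) (hij : i ≠ j)
    (α β : Bool) : -R < xi m c R ε i α j β ∧ xi m c R ε i α j β < R := by
  obtain ⟨h1, h2⟩ := h.xi_spec hi hj hij α β
  have h3 := abs_lt.1 (h.abs i j hi hj hij)
  have h4 := h.ne hi hj hij
  constructor
  · refine lt_of_le_of_ne h1.1 fun h5 => ?_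
    have h6 := h.diff hi hj hij α β (xi m c R ε i α j β)
    rw [h2, sub_self, ← h5] at h6
    have e1 : R ^ 2 - (-R) ^ 2 = 0 := by ring
    rw [e1, mul_zero, mul_zero, add_zero] at h6
    rcases mul_eq_zero.1 h6.symm with h7 | h7
    · exact h4 (by linarith)
    · linarith [h3.1]
  · refine lt_of_le_of_ne h1.2 fun h5 => ?_
    have h6 := h.diff hi hj hij α β (xi m c R ε i α j β)
    rw [h2, sub_self, h5] at h6
    have e1 : R ^ 2 - R ^ 2 = 0 := by ring
    rw [e1, mul_zero, mul_zero, add_zero] at h6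
    rcases mul_eq_zero.1 h6.symm with h7 | h7
    · exact h4 (by linarith)
    · linarith [h3.2]

/-- the two rungs of a lens -/
theorem Good.xi_lt (h : Good n m c R ε η) {i j : ℕ} (hi : i < n) (hj : j < n) (hij : i ≠ j)
    (α : Bool) : xi m c R ε i α j (decide (i ≤ j)) < xi m c R ε i α j (!decide (i ≤ j)) := by
  have ht := h.xi_spec hi hj hij α true
  have hf := h.xi_spec hi hj hij α false
  have at' := h.xi_abs hi hj hij α true
  have af := h.xi_abs hi hj hij α false
  have e : ∀ x, cv m c R ε j true x = cv m c R ε j false x + 2 * (ε * (R ^ 2 - x ^ 2)) := by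
    intro x
    unfold cv
    rw [sg_true, sg_false]
    ring
  have hp : ∀ x, -R < x ∧ x < R → 0 < 2 * (ε * (R ^ 2 - x ^ 2)) := by
    intro x hx
    have h1 : 0 < R ^ 2 - x ^ 2 := by nlinarith [hx.1, hx.2]
    have := mul_pos h.ε0 h1
    linarith
  rcases lt_or_gt_of_ne hij with h1 | h1
  · rw [decide_eq_true h1.le, Bool.not_true]
    by_contra hcon
    push Not at hcon
    have h2 := h.dec h1 hj α true hf.1 ht.1 hcon
    have h3 := e (xi m c R ε i α j false)
    have h4 := hp _ af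
    have h5 := hf.2
    have h6 := ht.2
    linarith
  · rw [decide_eq_false (by omega), Bool.not_false]
    by_contra hcon
    push Not at hcon
    have h2 := h.dec h1 hi true α ht.1 hf.1 hcon
    have h3 := e (xi m c R ε i α j false)
    have h4 := hp _ af
    have h5 := hf.2
    have h6 := ht.2
    linarith

end

end Pool.Agent.Helper51.DW
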