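import Pool.Agent.Helper51.DW.Place

set_option autoImplicit false

/-!
# MP_09ef41_lc: completeness, right turns of the placed walk
-/

namespace Pool.Agent.Helper51.DW

/-- vertices of the chain `(i, α)`, without the ends -/
def vs (i : ℕ) (α : Bool) (l : List ℕ) : List Vtx :=
  l.flatMap fun j => [vx i α j (decide (i ≤ j)), vx i α j (!(decide (i ≤ j)))]

/-- vertices of the chain `(i, α)` -/
def ch (i : ℕ) (α : Bool) (l : List ℕ) : List Vtx := pp i :: (vs i α l ++ [qq i])

theorem rungs_fst (i : ℕ) (l : List ℕ) : (rungs i l).map Prod.fst = vs i true l := by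
  induction l with
  | nil => rfl
  | cons j l ih => simp only [rungs, vs, List.flatMap_cons, List.map_append, rung] at ih ⊢; rw [ih]; rfl

theorem rungs_snd (i : ℕ) (l : List ℕ) : (rungs i l).map Prod.snd = vs i false l := by
  induction l with
  | nil => rfl
  | cons j l ih => simp only [rungs, vs, List.flatMap_cons, List.map_append, rung] at ih ⊢; rw [ih]; rfl

/-- the placement -/
noncomputable def XX (m c : ℕ → ℝ) (R ε : ℝ) (v : Vtx) : Pt :=
  if v.1.tail.length = v.2.tail.length then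
    (if v.1.headD true then (-R, m v.1.tail.length * (-R) + c v.1.tail.length)
      else (R, m v.1.tail.length * R + c v.1.tail.length))
  else (xi m c R ε v.1.tail.length (v.1.headD true) v.2.tail.length (v.2.headD true),
    cv m c R ε v.1.tail.length (v.1.headD true)
      (xi m c R ε v.1.tail.length (v.1.headD true) v.2.tail.length (v.2.headD true)))

section

variable {n : ℕ} {m c : ℕ → ℝ} {R ε η : ℝ}

theorem nm_len (i : ℕ) (α : Bool) : (nm i α).tail.length = i := by simp [nm]

theorem nm_head (i : ℕ) (α : Bool) : (nm i α).headD true = α := by simp [nm]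

theorem XX_pp (i : ℕ) : XX m c R ε (pp i) = (-R, m i * (-R) + c i) := by
  unfold XX pp vx
  rw [if_pos le_rfl]
  simp only [nm_len, nm_head, if_true]

theorem XX_qq (i : ℕ) : XX m c R ε (qq i) = (R, m i * R + c i) := by
  unfold XX qq vx
  rw [if_pos le_rfl]
  simp only [nm_len, nm_head, if_true]
  rfl

theorem Good.XX_vx (h : Good n m c R ε η) {i j : ℕ} (hi : i < n) (hj : j < n) (hij : i ≠ j)
    (α β : Bool) : XX m c R ε (vx i α j β) =
      (xi m c R ε i α j β, cv m c R ε i α (xi m c R ε i α j β)) := by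
  rcases lt_or_gt_of_ne hij with h1 | h1
  · have hv : vx i α j β = (nm i α, nm j β) := if_pos h1.le
    rw [hv, XX]
    simp only [nm_len, nm_head]
    rw [if_neg hij]
  · have hv : vx i α j β = (nm j β, nm i α) := if_neg (by omega)
    rw [hv, XX]
    simp only [nm_len, nm_head]
    rw [if_neg hij.symm, h.xi_comm hj hi hij.symm β α, (h.xi_spec hi hj hij α β).2]

theorem on_pp (hR : 0 < R) (i : ℕ) (α : Bool) : On (m i) (c i) R ε α (XX m c R ε (pp i)) := by
  rw [XX_pp]
  refine ⟨?_, le_rfl, ?_⟩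
  · show m i * (-R) + c i = m i * (-R) + c i + sg α * (ε * (R ^ 2 - (-R) ^ 2))
    ring
  · show -R ≤ R
    linarith

theorem on_qq (hR : 0 < R) (i : ℕ) (α : Bool) : On (m i) (c i) R ε α (XX m c R ε (qq i)) := by
  rw [XX_qq]
  refine ⟨?_, ?_, le_rfl⟩
  · show m i * R + c i = m i * R + c i + sg α * (ε * (R ^ 2 - R ^ 2))
    ring
  · show -R ≤ R
    linarith

theorem Good.on_vx (h : Good n m c R ε η) {i j : ℕ} (hi : i < n) (hj : j < n) (hij : i ≠ j)
    (α β : Bool) : On (m i) (c i) R ε α (XX m c R ε (vx i α j β)) ∧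
      -R < (XX m c R ε (vx i α j β)).1 ∧ (XX m c R ε (vx i α j β)).1 < R := by
  rw [h.XX_vx hi hj hij]
  have h1 := h.xi_abs hi hj hij α β
  exact ⟨⟨rfl, h1.1.le, h1.2.le⟩, h1⟩

theorem mem_vs {i : ℕ} {α : Bool} {l : List ℕ} {v : Vtx} (hv : v ∈ vs i α l) :
    ∃ j ∈ l, ∃ β, v = vx i α j β := by
  rw [vs, List.mem_flatMap] at hv
  obtain ⟨j, hj, hv⟩ := hv
  simp only [List.mem_cons, List.not_mem_nil, or_false] at hv
  rcases hv with hv | hv
  · exact ⟨j, hj, _, hv⟩
  · exact ⟨j, hj, _, hv⟩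

theorem vx_mem_vs {i j : ℕ} {l : List ℕ} (h : j ∈ l) (α β : Bool) : vx i α j β ∈ vs i α l := by
  rw [vs, List.mem_flatMap]
  refine ⟨j, h, ?_⟩
  cases β <;> cases (decide (i ≤ j)) <;> simp

/-- the sequence `l` of the `i`-th line is correct -/
def OK (n : ℕ) (m c : ℕ → ℝ) (i : ℕ) (l : List ℕ) : Prop :=
  i < n ∧ (∀ j ∈ l, j < n ∧ j ≠ i) ∧ l.Pairwise fun j k => xx m c i j < xx m c i k

theorem Good.vs_inc (h : Good n m c R ε η) {i : ℕ} {l : List ℕ} (hl : OK n m c i l) (α : Bool) :
    (vs i α l).Pairwise fun u v => Inc (XX m c R ε u) (XX m c R ε v) := by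
  obtain ⟨hi, hm, hp⟩ := hl
  rw [vs, List.pairwise_flatMap]
  constructor
  · intro j hj
    obtain ⟨h1, h2⟩ := hm j hj
    rw [List.pairwise_cons]
    refine ⟨?_, List.pairwise_singleton _ _⟩
    intro v hv
    rw [List.mem_singleton] at hv
    subst hv
    show (XX m c R ε _).1 < (XX m c R ε _).1
    rw [h.XX_vx hi h1 h2.symm, h.XX_vx hi h1 h2.symm]
    exact h.xi_lt hi h1 h2.symm α
  · refine hp.imp_of_mem ?_
    intro j k hj hk hjk u hu v hv
    obtain ⟨h1, h2⟩ := hm j hj
    obtain ⟨h3, h4⟩ := hm k hk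
    have key : ∀ β γ, Inc (XX m c R ε (vx i α j β)) (XX m c R ε (vx i α k γ)) := by
      intro β γ
      show (XX m c R ε _).1 < (XX m c R ε _).1
      rw [h.XX_vx hi h1 h2.symm, h.XX_vx hi h3 h4.symm]
      show xi m c R ε i α j β < xi m c R ε i α k γ
      have h5 := abs_lt.1 (h.xi_disp hi h1 h2.symm α β)
      have h6 := abs_lt.1 (h.xi_disp hi h3 h4.symm α γ)
      have h7 := h.sep i j k hi h1 h3 hjk
      linarith [h5.2, h6.1]
    simp only [List.mem_cons, List.not_mem_nil, or_false] at hu hv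
    rcases hu with rfl | rfl <;> rcases hv with rfl | rfl <;> exact key _ _

theorem Good.ch_inc (h : Good n m c R ε η) {i : ℕ} {l : List ℕ} (hl : OK n m c i l) (α : Bool) :
    (ch i α l).Pairwise fun u v => Inc (XX m c R ε u) (XX m c R ε v) := by
  have hb : ∀ v ∈ vs i α l, -R < (XX m c R ε v).1 ∧ (XX m c R ε v).1 < R := by
    intro v hv
    obtain ⟨j, hj, β, rfl⟩ := mem_vs hv
    obtain ⟨h1, h2⟩ := hl.2.1 j hj
    exact (h.on_vx hl.1 h1 h2.symm α β).2
  rw [ch, List.pairwise_cons, List.pairwise_append]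
  refine ⟨?_, h.vs_inc hl α, List.pairwise_singleton _ _, ?_⟩
  · intro v hv
    show (XX m c R ε _).1 < (XX m c R ε _).1
    rw [XX_pp]
    rcases List.mem_append.1 hv with hv | hv
    · exact (hb v hv).1
    · rw [List.mem_singleton] at hv
      subst hv
      rw [XX_qq]
      show -R < R
      linarith [h.R0]
  · intro v hv w hw
    rw [List.mem_singleton] at hw
    subst hw
    show (XX m c R ε _).1 < (XX m c R ε _).1
    rw [XX_qq]
    exact (hb v hv).2

theorem Good.ch_on (h : Good n m c R ε η) {i : ℕ} {l : List ℕ} (hl : OK n m c i l) (α : Bool) :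
    ∀ v ∈ ch i α l, On (m i) (c i) R ε α (XX m c R ε v) := by
  intro v hv
  rw [ch, List.mem_cons, List.mem_append, List.mem_singleton] at hv
  rcases hv with rfl | hv | rfl
  · exact on_pp h.R0 i α
  · obtain ⟨j, hj, β, rfl⟩ := mem_vs hv
    obtain ⟨h1, h2⟩ := hl.2.1 j hj
    exact (h.on_vx hl.1 h1 h2.symm α β).1
  · exact on_qq h.R0 i α

/-- a strip is placed with right turns -/
theorem Good.strip_RT (h : Good n m c R ε η) {i : ℕ} {l : List ℕ} (hl : OK n m c i l) :
    RT ((strip (pp i) (qq i) (rungs i l)).map (XX m c R ε)) := by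
  rw [strip_map]
  have hin : ∀ ab ∈ (rungs i l).map (Prod.map (XX m c R ε) (XX m c R ε)),
      On (m i) (c i) R ε true ab.1 ∧ On (m i) (c i) R ε false ab.2 ∧ -R < ab.1.1 ∧ ab.1.1 < R ∧
      -R < ab.2.1 ∧ ab.2.1 < R := by
    intro ab hab
    rw [List.mem_map] at hab
    obtain ⟨uv, huv, rfl⟩ := hab
    rw [rungs, List.mem_flatMap] at huv
    obtain ⟨j, hj, huv⟩ := huv
    obtain ⟨h1, h2⟩ := hl.2.1 j hj
    simp only [List.mem_cons, List.not_mem_nil, or_false] at huv
    have key : ∀ β, On (m i) (c i) R ε true (XX m c R ε (vx i true j β)) ∧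
        On (m i) (c i) R ε false (XX m c R ε (vx i false j β)) ∧
        -R < (XX m c R ε (vx i true j β)).1 ∧ (XX m c R ε (vx i true j β)).1 < R ∧
        -R < (XX m c R ε (vx i false j β)).1 ∧ (XX m c R ε (vx i false j β)).1 < R := by
      intro β
      have h3 := h.on_vx hl.1 h1 h2.symm true β
      have h4 := h.on_vx hl.1 h1 h2.symm false β
      exact ⟨h3.1, h4.1, h3.2.1, h3.2.2, h4.2.1, h4.2.2⟩
    rcases huv with rfl | rfl <;> exact key _
  have hA : (XX m c R ε (pp i) :: (((rungs i l).map (Prod.map (XX m c R ε) (XX m c R ε))).map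
      Prod.fst ++ [XX m c R ε (qq i)])).IsChain Inc := by
    have h1 := (h.ch_inc hl true).isChain
    rw [ch, ← rungs_fst] at h1
    have h2 := (List.isChain_map (R := Inc) (XX m c R ε)).2 h1
    simp only [List.map_cons, List.map_append, List.map_nil, List.map_map] at h2 ⊢
    exact h2
  have hB : (XX m c R ε (pp i) :: (((rungs i l).map (Prod.map (XX m c R ε) (XX m c R ε))).map
      Prod.snd ++ [XX m c R ε (qq i)])).IsChain Inc := by
    have h1 := (h.ch_inc hl false).isChain
    rw [ch, ← rungs_snd] at h1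
    have h2 := (List.isChain_map (R := Inc) (XX m c R ε)).2 h1
    simp only [List.map_cons, List.map_append, List.map_nil, List.map_map] at h2 ⊢
    exact h2
  rcases hr : (rungs i l).map (Prod.map (XX m c R ε) (XX m c R ε)) with _ | ⟨⟨a, b⟩, r⟩
  · trivial
  · rw [hr] at hin hA hB
    rw [strip_iff]
    have h1 := hin (a, b) (by simp)
    refine ⟨?_, con_of_lens h.ε0 (on_qq h.R0 i true) (on_qq h.R0 i false) _ _ _
      (on_pp h.R0 i true) (on_pp h.R0 i false) hin hA hB⟩
    refine F3 h.ε0 (on_pp h.R0 i true) h1.1 h1.2.1 ?_ h1.2.2.2.2.1 h1.2.2.2.2.2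
    simp only [List.map_cons, List.cons_append, List.isChain_cons_cons] at hA
    exact hA.1

end

end Pool.Agent.Helper51.DW
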