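import Pool.Agent.Helper51.DW.Place2

set_option autoImplicit false

/-!
# MP_09ef41_lc: completeness, right turns of the links and of the whole walk
-/

namespace Pool.Agent.Helper51.DW

theorem head_split {V : Type} (l : List V) (u v : V) : ∃ x l', l ++ [u, v] = x :: l' := by
  rcases l with _ | ⟨a, l⟩
  · exact ⟨u, [v], rfl⟩
  · exact ⟨a, l ++ [u, v], rfl⟩

/-- right turns of a link -/
theorem link_RT {m c m' c' R ε : ℝ} (hε : 0 < ε) {p b1 u v w p' a1' : Pt} {as bs : List Pt}
    (hup : ∀ a ∈ p :: (as ++ [u, v]), On m c R ε true a)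
    (hinc : (p :: (as ++ [u, v])).IsChain Inc)
    (hb1 : On m c R ε false b1 ∧ -R < b1.1 ∧ b1.1 < R)
    (hw : On m c R ε false w ∧ -R < w.1 ∧ w.1 < R)
    (hlow : ∀ b ∈ p' :: (bs ++ [w, v]), On m' c' R ε false b)
    (hint : ∀ b ∈ bs ++ [w, v], -R < b.1 ∧ b.1 < R)
    (hinc' : (p' :: (bs ++ [w, v])).IsChain Inc)
    (hp' : On m' c' R ε true p') (ha1' : On m' c' R ε true a1') (hpa : Inc p' a1') :
    RT (b1 :: p :: (as ++ ([u, v, w] ++ (bs.reverse ++ [p', a1'])))) := by
  have e : b1 :: p :: (as ++ ([u, v, w] ++ (bs.reverse ++ [p', a1']))) =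
      (b1 :: p :: as) ++ u :: v :: (w :: (bs.reverse ++ [p', a1'])) := by simp
  rw [e, RT_glue]
  constructor
  · obtain ⟨x, l', hx⟩ := head_split as u v
    have e1 : (b1 :: p :: as) ++ [u, v] = b1 :: p :: (as ++ [u, v]) := by simp
    rw [e1]
    have h1 := RT_up hε _ hup hinc
    rw [hx] at h1 hinc hup ⊢
    refine ⟨?_, h1⟩
    have h2 := F3 hε (hup p (by simp)) (hup x (by simp)) hb1.1
      (List.isChain_cons_cons.1 hinc).1 hb1.2.1 hb1.2.2
    rwa [← cr_cyc, ← cr_cyc] at h2
  · rw [RT_cons]
    constructor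
    · have huv : Inc u v := by
        have h1 : [u, v] <:+: p :: (as ++ [u, v]) := ⟨p :: as, [], by simp⟩
        have h2 := chain_sub hinc h1
        exact (List.isChain_cons_cons.1 h2).1
      exact F3 hε (hup u (by simp)) (hup v (by simp)) hw.1 huv hw.2.1 hw.2.2
    · have h1 := RT_low hε _ hlow hinc'
      have e2 : v :: w :: (bs.reverse ++ [p', a1']) = (p' :: (bs ++ [w, v])).reverse ++ [a1'] := by
        simp
      rw [e2]
      obtain ⟨x, l', hx⟩ := head_split bs w v
      rw [hx] at h1 hinc' hint hlow ⊢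
      have e3 : (p' :: x :: l').reverse ++ [a1'] = l'.reverse ++ x :: p' :: [a1'] := by simp
      have e4 : (p' :: x :: l').reverse = l'.reverse ++ [x, p'] := by simp
      rw [e3, RT_glue, ← e4]
      refine ⟨h1, ?_, trivial⟩
      have h2 := hint x (by simp)
      have h3 := F3 hε hp' ha1' (hlow x (by simp)) hpa h2.1 h2.2
      rwa [← cr_cyc, ← cr_cyc] at h3

theorem takeWhile_split {l : List ℕ} {a : ℕ} (h : a ∈ l) :
    ∃ l2, l = l.takeWhile (· ≠ a) ++ a :: l2 := by
  induction l with
  | nil => simp at h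
  | cons b l ih =>
    by_cases hb : b = a
    · subst hb
      exact ⟨l, by simp⟩
    · obtain ⟨l2, hl2⟩ := ih (by
        rcases List.mem_cons.1 h with h | h
        · exact absurd h.symm hb
        · exact h)
      refine ⟨l2, ?_⟩
      rw [List.takeWhile_cons_of_pos (by simpa using hb), List.cons_append, ← hl2]

theorem rungs_ne {i : ℕ} {l : List ℕ} (h : l ≠ []) : ∃ a b r, rungs i l = (a, b) :: r := by
  rcases l with _ | ⟨j, l⟩
  · exact absurd rfl h
  · exact ⟨_, _, _, rfl⟩

theorem strip_ends {V : Type} (p q a b : V) (r : List (V × V)) :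
    (∃ S, strip p q ((a, b) :: r) = S ++ [b, p]) ∧ (∃ T, strip p q ((a, b) :: r) = p :: a :: T) := by
  constructor
  · refine ⟨[p, a, b, p] ++ (quads q ((a, b) :: r) ++ (r.map Prod.snd).reverse), ?_⟩
    simp [strip]
  · exact ⟨_, rfl⟩

section

variable {n : ℕ} {m c : ℕ → ℝ} {R ε η : ℝ}

theorem vs_append (i : ℕ) (α : Bool) (l l' : List ℕ) : vs i α (l ++ l') = vs i α l ++ vs i α l' := by
  simp [vs]

theorem Good.link_RT (h : Good n m c R ε η) {i : ℕ} {l l' : List ℕ} (hl : OK n m c i l)
    (hl' : OK n m c (i + 1) l') (h1 : i + 1 ∈ l) (h2 : i ∈ l') {a b a' b' : Vtx}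
    {r r' : List (Vtx × Vtx)} (hr : rungs i l = (a, b) :: r)
    (hr' : rungs (i + 1) l' = (a', b') :: r') :
    RT ((b :: pp i :: (link i l l' ++ [pp (i + 1), a'])).map (XX m c R ε)) := by
  obtain ⟨l2, hs⟩ := takeWhile_split h1
  obtain ⟨l2', hs'⟩ := takeWhile_split h2
  set X := XX m c R ε with hX
  have hu := h.ch_inc hl true
  have hv := h.ch_inc hl' false
  have hvu := h.ch_inc hl' true
  have onu := h.ch_on hl true
  have onv := h.ch_on hl' false
  have onvu := h.ch_on hl' true
  have e1 : ch i true l = (pp i :: (vs i true (l.takeWhile (· ≠ i + 1)) ++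
      [vx i true (i + 1) true, vx i true (i + 1) false])) ++ (vs i true l2 ++ [qq i]) := by
    rw [ch]
    conv_lhs => rw [hs]
    rw [vs_append]
    simp only [vs, List.flatMap_cons, decide_eq_true (show i ≤ i + 1 by omega), Bool.not_true]
    simp
  have e2 : ch (i + 1) false l' = (pp (i + 1) :: (vs (i + 1) false (l'.takeWhile (· ≠ i)) ++
      [vx i false (i + 1) false, vx i true (i + 1) false])) ++ (vs (i + 1) false l2' ++ [qq (i + 1)]) := by
    rw [ch]
    conv_lhs => rw [hs']
    rw [vs_append, vx_comm (show i ≠ i + 1 by omega) false false,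
      vx_comm (show i ≠ i + 1 by omega) true false]
    simp only [vs, List.flatMap_cons, decide_eq_false (show ¬ i + 1 ≤ i by omega), Bool.not_false]
    simp
  have hb : b ∈ vs i false l := by
    rw [← rungs_snd, hr]; simp
  have ha' : a' ∈ vs (i + 1) true l' := by
    rw [← rungs_fst, hr']; simp
  have hbb : On (m i) (c i) R ε false (X b) ∧ -R < (X b).1 ∧ (X b).1 < R := by
    obtain ⟨j, hj, β, rfl⟩ := mem_vs hb
    obtain ⟨h3, h4⟩ := hl.2.1 j hj
    exact h.on_vx hl.1 h3 h4.symm false β
  have e3 : (b :: pp i :: (link i l l' ++ [pp (i + 1), a'])).map X =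
      X b :: X (pp i) :: ((vs i true (l.takeWhile (· ≠ i + 1))).map X ++
        ([X (vx i true (i + 1) true), X (vx i true (i + 1) false), X (vx i false (i + 1) false)] ++
          (((vs (i + 1) false (l'.takeWhile (· ≠ i))).map X).reverse ++ [X (pp (i + 1)), X a']))) := by
    simp only [link, rungs_fst, rungs_snd]
    simp
  rw [e3]
  refine DW.link_RT (m := m i) (c := c i) (m' := m (i + 1)) (c' := c (i + 1)) (R := R) h.ε0 ?_ ?_ hbb ?_ ?_ ?_ ?_
    (on_pp h.R0 _ _) ?_ ?_
  · intro z hz
    have : z ∈ (pp i :: (vs i true (l.takeWhile (· ≠ i + 1)) ++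
      [vx i true (i + 1) true, vx i true (i + 1) false])).map X := by simpa using hz
    obtain ⟨y, hy, rfl⟩ := List.mem_map.1 this
    exact onu y (by rw [e1]; exact List.mem_append_left _ hy)
  · rw [e1] at hu
    have h5 := (List.isChain_map (R := Inc) X).2 (List.pairwise_append.1 hu).1.isChain
    simpa using h5
  · exact h.on_vx hl.1 hl'.1 (by omega) false false
  · intro z hz
    have : z ∈ (pp (i + 1) :: (vs (i + 1) false (l'.takeWhile (· ≠ i)) ++
      [vx i false (i + 1) false, vx i true (i + 1) false])).map X := by simpa using hz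
    obtain ⟨y, hy, rfl⟩ := List.mem_map.1 this
    exact onv y (by rw [e2]; exact List.mem_append_left _ hy)
  · intro z hz
    have : z ∈ (vs (i + 1) false (l'.takeWhile (· ≠ i)) ++
      [vx i false (i + 1) false, vx i true (i + 1) false]).map X := by simpa using hz
    obtain ⟨y, hy, rfl⟩ := List.mem_map.1 this
    rcases List.mem_append.1 hy with hy | hy
    · obtain ⟨j, hj, β, rfl⟩ := mem_vs hy
      obtain ⟨h3, h4⟩ := hl'.2.1 j ((List.takeWhile_prefix _).subset hj)
      exact (h.on_vx hl'.1 h3 h4.symm false β).2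
    · simp only [List.mem_cons, List.not_mem_nil, or_false] at hy
      rcases hy with rfl | rfl
      · exact (h.on_vx hl.1 hl'.1 (by omega) false false).2
      · exact (h.on_vx hl.1 hl'.1 (by omega) true false).2
  · rw [e2] at hv
    have h5 := (List.isChain_map (R := Inc) X).2 (List.pairwise_append.1 hv).1.isChain
    simpa using h5
  · exact onvu a' (by rw [ch]; simp [ha'])
  · rw [ch, List.pairwise_cons] at hvu
    exact hvu.1 a' (by simp [ha'])

/-- the whole walk is placed with right turns -/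
theorem Good.walk_RT (h : Good n m c R ε η) : ∀ (L : List (List ℕ)) (k : ℕ), k + L.length ≤ n →
    (∀ i l, L[i]? = some l → OK n m c (k + i) l ∧ ∀ j < n, j ≠ k + i → j ∈ l) → 2 ≤ n →
    RT ((walk k L).map (XX m c R ε))
  | [], _, _, _, _ => trivial
  | [l], k, hk, hL, hn => by
    have h1 := hL 0 l rfl
    have e : walk k [l] = strip (pp k) (qq k) (rungs k l) := by
      rw [walk_cons]
      simp [walk]
    rw [e]
    exact h.strip_RT h1.1
  | l :: l' :: L, k, hk, hL, hn => by
    have ih := Good.walk_RT h (l' :: L) (k + 1) (by simp only [List.length_cons] at hk ⊢; omega)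
      (fun i l hl => by
        have := hL (i + 1) l (by simpa using hl)
        rwa [show k + (i + 1) = k + 1 + i by ring] at this) hn
    have h1 := hL 0 l rfl
    have h2 := hL 1 l' rfl
    rw [Nat.add_zero] at h1
    simp only [List.length_cons] at hk
    have h3 : k + 1 ∈ l := h1.2 (k + 1) (by omega) (by omega)
    have h4 : k ∈ l' := h2.2 k (by omega) (by omega)
    obtain ⟨a, b, r, hr⟩ := rungs_ne (i := k) (List.ne_nil_of_mem h3)
    obtain ⟨a', b', r', hr'⟩ := rungs_ne (i := k + 1) (List.ne_nil_of_mem h4)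
    have hlink := h.link_RT h1.1 h2.1 h3 h4 hr hr'
    have hstrip := h.strip_RT h1.1
    obtain ⟨S, hS⟩ := (strip_ends (pp k) (qq k) a b r).1
    obtain ⟨T, hT⟩ := (strip_ends (pp (k + 1)) (qq (k + 1)) a' b' r').2
    have hw : ∃ T', walk (k + 1) (l' :: L) = pp (k + 1) :: a' :: T' := by
      rw [walk_cons, hr', hT]
      exact ⟨_, rfl⟩
    obtain ⟨T', hT'⟩ := hw
    rw [walk_cons]
    rw [hr, hS] at hstrip ⊢
    rw [hT'] at ih ⊢
    have e1 : (S ++ [b, pp k] ++ (link k l l' ++ pp (k + 1) :: a' :: T')).map (XX m c R ε) =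
        S.map (XX m c R ε) ++ XX m c R ε b :: XX m c R ε (pp k) :: ((link k l l').map (XX m c R ε) ++
          XX m c R ε (pp (k + 1)) :: XX m c R ε a' :: T'.map (XX m c R ε)) := by simp
    show RT ((S ++ [b, pp k] ++ (link k l l' ++ pp (k + 1) :: a' :: T')).map (XX m c R ε))
    rw [e1, RT_glue]
    constructor
    · simpa using hstrip
    · have e2 : XX m c R ε b :: XX m c R ε (pp k) :: ((link k l l').map (XX m c R ε) ++
          XX m c R ε (pp (k + 1)) :: XX m c R ε a' :: T'.map (XX m c R ε)) =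
          (XX m c R ε b :: XX m c R ε (pp k) :: (link k l l').map (XX m c R ε)) ++
          XX m c R ε (pp (k + 1)) :: XX m c R ε a' :: T'.map (XX m c R ε) := by simp
      rw [e2, RT_glue]
      constructor
      · simpa using hlink
      · simpa using ih

end

end Pool.Agent.Helper51.DW
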