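import Pool.Agent.Helper51.DW.Strip

set_option autoImplicit false

/-!
# MP_09ef41_lc: soundness, the geometry of one strip
-/

namespace Pool.Agent.Helper51.DW

theorem five {x1 x2 x3 x4 x5 x6 : ℝ} (h1 : x1 < 0) (h2 : 0 < x2) (h3 : x3 < 0)
    (i : x1 + x4 - x5 < 0) (ii : x4 - x2 - x6 < 0) (iii : -x2 - x3 + x5 < 0)
    (iv : -x3 + x1 + x6 < 0) (pl : x3 * x4 = x1 * x2 + x5 * x6) : x4 < 0 ∧ x5 < 0 ∧ x6 < 0 := by
  have h4 : x4 < 0 := by
    by_contra h4
    push Not at h4
    rcases le_or_gt 0 x5 with h5 | h5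
    · rcases le_or_gt 0 x6 with h6 | h6
      · nlinarith [mul_nonneg h5 h6, mul_pos (neg_pos.2 h1) h2, mul_nonneg (neg_pos.2 h3).le h4]
      · nlinarith [mul_nonneg h5 (neg_pos.2 h6).le, mul_pos (neg_pos.2 h1) h2]
    · rcases le_or_gt 0 x6 with h6 | h6
      · nlinarith [mul_nonneg (neg_pos.2 h5).le h6, mul_pos (neg_pos.2 h1) h2]
      · nlinarith [mul_pos (neg_pos.2 h5) (neg_pos.2 h6), mul_pos (neg_pos.2 h1) h2]
  have h56 : 0 < x5 * x6 := by
    nlinarith [mul_pos (neg_pos.2 h3) (neg_pos.2 h4), mul_pos (neg_pos.2 h1) h2]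
  rcases le_or_gt 0 x5 with h5 | h5
  · have h6 : 0 < x6 := by
      rcases h5.lt_or_eq with h | h
      · exact (pos_iff_pos_of_mul_pos h56).1 h
      · rw [← h] at h56; simp at h56
    exfalso
    nlinarith [mul_pos (neg_pos.2 h3) (neg_pos.2 h4)]
  · refine ⟨h4, h5, ?_⟩
    nlinarith

/-- seen from `p`, the next rung is inside the cone over the present rung -/
theorem five_pt {p a a' b b' : Pt} (h1 : cr p a a' < 0) (h2 : 0 < cr p b b') (h3 : cr p a b < 0)
    (i : cr a a' b' < 0) (ii : cr a' b' b < 0) (iii : cr b' b a < 0) (iv : cr b a a' < 0) :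
    cr p a' b' < 0 ∧ cr p a b' < 0 ∧ cr p a' b < 0 := by
  refine five h1 h2 h3 ?_ ?_ ?_ ?_ ?_
  · have : cr a a' b' = cr p a a' + cr p a' b' - cr p a b' := by unfold cr; ring
    linarith
  · have : cr a' b' b = cr p a' b' - cr p b b' - cr p a' b := by unfold cr; ring
    linarith
  · have : cr b' b a = - cr p b b' - cr p a b + cr p a b' := by unfold cr; ring
    linarith
  · have : cr b a a' = - cr p a b + cr p a a' + cr p a' b := by unfold cr; ring
    linarith
  · unfold cr; ring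

/-- the next vertex of the upper chain -/
theorem next_upper {p a0 a b a' : Pt} (h1 : cr p a0 a < 0) (h2 : cr a0 a b < 0)
    (h3 : cr p a b < 0) (h4 : cr a0 a a' < 0) (h5 : cr b a a' < 0) : cr p a a' < 0 := by
  have id : (-(cr a0 a b)) * cr p a a' = cr p a0 a * (-(cr b a a')) + cr p a b * (-(cr a0 a a')) := by
    unfold cr; ring
  nlinarith [mul_pos (neg_pos.2 h1) (neg_pos.2 h5), mul_pos (neg_pos.2 h3) (neg_pos.2 h4)]

/-- the next vertex of the lower chain -/
theorem next_lower {p b0 b a b' : Pt} (h1 : 0 < cr p b0 b) (h2 : cr a b b0 < 0)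
    (h3 : cr p a b < 0) (h4 : cr b' b b0 < 0) (h5 : cr b' b a < 0) : 0 < cr p b b' := by
  have id : (-(cr a b b0)) * cr p b b' = cr p b0 b * (-(cr b' b a)) + (-(cr p a b)) * (-(cr b' b b0)) := by
    unfold cr; ring
  nlinarith [mul_pos h1 (neg_pos.2 h5), mul_pos (neg_pos.2 h3) (neg_pos.2 h4)]

/-- conclusions about a strip -/
def Conc (p q : Pt) : List (Pt × Pt) → Prop
  | [] => True
  | (a, b) :: r => (cr p a q < 0 ∧ 0 < cr p b q ∧ cr p a b < 0 ∧
      (match r with
        | [] => True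
        | (a', b') :: _ => cr a a' b' < 0 ∧ cr b a' b' < 0)) ∧ Conc p q r

theorem conc_of_con (p q : Pt) : ∀ (r : List (Pt × Pt)) (a0 b0 a b : Pt),
    Con q a0 b0 ((a, b) :: r) → cr p a b < 0 →
    (a0 = p ∨ (cr p a0 a < 0 ∧ cr a0 a b < 0)) → (b0 = p ∨ (0 < cr p b0 b ∧ cr a b b0 < 0)) →
    Conc p q ((a, b) :: r)
  | [], a0, b0, a, b, h, hα, ha, hb => by
    simp only [Con, and_true] at h
    obtain ⟨c1, c2, c3⟩ := h
    have c4 : cr b a q < 0 := by
      have e : cr b a q = cr a q b := by unfold cr; ring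
      rwa [e]
    have c5 : cr q b a < 0 := by
      have e : cr q b a = cr a q b := by unfold cr; ring
      rwa [e]
    refine ⟨⟨?_, ?_, hα, trivial⟩, trivial⟩
    · rcases ha with rfl | ha
      · exact c1
      · exact next_upper ha.1 ha.2 hα c1 c4
    · rcases hb with rfl | hb
      · have : cr b0 b q = - cr q b b0 := by unfold cr; ring
        linarith
      · exact next_lower hb.1 hb.2 hα c2 c5
  | (a', b') :: r, a0, b0, a, b, h, hα, ha, hb => by
    simp only [Con] at h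
    obtain ⟨⟨c1, c2, c3, c4, c5, c6⟩, hc⟩ := h
    have hβ : cr p a a' < 0 := by
      rcases ha with rfl | ha
      · exact c1
      · exact next_upper ha.1 ha.2 hα c1 c6
    have hγ : 0 < cr p b b' := by
      rcases hb with rfl | hb
      · have : cr b0 b b' = - cr b' b b0 := by unfold cr; ring
        linarith
      · exact next_lower hb.1 hb.2 hα c2 c5
    obtain ⟨x4, x5, x6⟩ := five_pt hβ hγ hα c3 c4 c5 c6
    have ih := conc_of_con p q r a b a' b' hc x4 (Or.inr ⟨hβ, c3⟩) (Or.inr ⟨hγ, c4⟩)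
    obtain ⟨⟨y1, y2, -, -⟩, -⟩ := id ih
    refine ⟨⟨?_, ?_, hα, c3, ?_⟩, ih⟩
    · have id : (-(cr p a' b')) * cr p a q = cr p b' q * cr p a a' + (-(cr p a' q)) * cr p a b' := by
        unfold cr; ring
      nlinarith [mul_pos y2 (neg_pos.2 hβ), mul_pos (neg_pos.2 y1) (neg_pos.2 x5)]
    · have id : (-(cr p a' b')) * cr p b q
          = cr p b' q * (-(cr p a' b)) + (-(cr p a' q)) * cr p b b' := by
        unfold cr; ring
      nlinarith [mul_pos y2 (neg_pos.2 x6), mul_pos (neg_pos.2 y1) hγ]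
    · have e : cr b a' b' = cr a' b' b := by unfold cr; ring
      rwa [e]

/-- geometry of a strip -/
theorem strip_conc {p q : Pt} {r : List (Pt × Pt)} (h : RT (strip p q r)) : Conc p q r := by
  rcases r with _ | ⟨⟨a, b⟩, r⟩
  · trivial
  · rw [strip_iff] at h
    exact conc_of_con p q r p p a b h.2 h.1 (Or.inl rfl) (Or.inl rfl)

/-- parameter of the crossing of the line `pq` with the line `ab` -/
noncomputable def tp (p q a b : Pt) : ℝ := cr a b p / (cr a b p - cr a b q)

/-- rungs are crossed in their order -/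
theorem tp_lt {p q a b a' b' : Pt} (h1 : cr p a q < 0) (h2 : 0 < cr p b q) (h3 : cr p a b < 0)
    (h1' : cr p a' q < 0) (h2' : 0 < cr p b' q) (h3' : cr p a' b' < 0)
    (h4 : cr a a' b' < 0) (h5 : cr b a' b' < 0) : tp p q a b < tp p q a' b' := by
  have d : cr a b p - cr a b q = cr p a q - cr p b q := by unfold cr; ring
  have d' : cr a' b' p - cr a' b' q = cr p a' q - cr p b' q := by unfold cr; ring
  have key : cr a b p * (cr a' b' p - cr a' b' q) - cr a' b' p * (cr a b p - cr a b q)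
      = cr p b q * cr a a' b' + (-(cr p a q)) * cr b a' b' := by unfold cr; ring
  have hd : cr a b p - cr a b q < 0 := by rw [d]; linarith
  have hd' : cr a' b' p - cr a' b' q < 0 := by rw [d']; linarith
  unfold tp
  rw [← neg_div_neg_eq, ← neg_div_neg_eq (cr a' b' p),
    div_lt_div_iff₀ (neg_pos.2 hd) (neg_pos.2 hd')]
  nlinarith [mul_pos h2 (neg_pos.2 h4), mul_pos (neg_pos.2 h1) (neg_pos.2 h5)]

theorem conc_mem {p q : Pt} : ∀ {r : List (Pt × Pt)}, Conc p q r →
    ∀ ab ∈ r, cr p ab.1 q < 0 ∧ 0 < cr p ab.2 q ∧ cr p ab.1 ab.2 < 0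
  | [], _, _, h => by simp at h
  | (a, b) :: r, h, ab, hab => by
    rcases List.mem_cons.1 hab with rfl | hab
    · exact ⟨h.1.1, h.1.2.1, h.1.2.2.1⟩
    · exact conc_mem h.2 ab hab

theorem conc_pairwise {p q : Pt} : ∀ {r : List (Pt × Pt)}, Conc p q r →
    r.Pairwise fun ab cd => tp p q ab.1 ab.2 < tp p q cd.1 cd.2
  | [], _ => List.Pairwise.nil
  | [(a, b)], _ => by simp
  | (a, b) :: (a', b') :: r, h => by
    have ih := conc_pairwise h.2
    have h1 : tp p q a b < tp p q a' b' :=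
      tp_lt h.1.1 h.1.2.1 h.1.2.2.1 h.2.1.1 h.2.1.2.1 h.2.1.2.2.1 h.1.2.2.2.1 h.1.2.2.2.2
    rw [List.pairwise_cons] at ih ⊢
    refine ⟨?_, List.pairwise_cons.2 ih⟩
    intro cd hcd
    rcases List.mem_cons.1 hcd with rfl | hcd
    · exact h1
    · exact h1.trans (ih.1 cd hcd)

end Pool.Agent.Helper51.DW
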