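import Pool.Agent.Helper51.DW.Sound

set_option autoImplicit false

/-!
# MP_09ef41_lc: soundness, a realization of the walk gives a line arrangement
-/

namespace Pool.Agent.Helper51.DW

theorem vx_comm {i j : ℕ} (h : i ≠ j) (α β : Bool) : vx i α j β = vx j β i α := by
  unfold vx
  rcases lt_or_gt_of_ne h with h | h
  · rw [if_pos h.le, if_neg (by omega)]
  · rw [if_neg (by omega), if_pos h.le]

theorem quads_map {V W : Type} (f : V → W) (q : V) : ∀ r : List (V × V),
    (quads q r).map f = quads (f q) (r.map (Prod.map f f))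
  | [] => rfl
  | [(a, b)] => by simp [quads]
  | (a, b) :: (a', b') :: r => by
    rw [quads_cons_cons]
    simp only [List.map_cons, Prod.map_apply]
    rw [quads_cons_cons, quads_map f q ((a', b') :: r)]
    rfl

theorem strip_map {V W : Type} (f : V → W) (p q : V) (r : List (V × V)) :
    (strip p q r).map f = strip (f p) (f q) (r.map (Prod.map f f)) := by
  rcases r with _ | ⟨⟨a, b⟩, r⟩
  · rfl
  · simp only [strip, List.map_append, quads_map, List.map_cons, List.map_nil, Prod.map_apply,
      List.map_reverse, List.map_map]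
    rfl

theorem walk_cons (k : ℕ) (l : List ℕ) (L : List (List ℕ)) :
    walk k (l :: L) = strip (pp k) (qq k) (rungs k l) ++
      ((match L with
        | [] => []
        | l' :: _ => link k l l') ++ walk (k + 1) L) := by
  cases L <;> rfl

theorem strip_infix : ∀ (L : List (List ℕ)) (k i : ℕ) (l : List ℕ), L[i]? = some l →
    strip (pp (k + i)) (qq (k + i)) (rungs (k + i) l) <:+: walk k L
  | [], _, _, _, h => by simp at h
  | l' :: L, k, 0, l, h => by
    simp only [List.getElem?_cons_zero, Option.some.injEq] at h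
    subst h
    exact (List.prefix_append _ _).isInfix
  | l' :: L, k, i + 1, l, h => by
    rw [List.getElem?_cons_succ] at h
    have ih := strip_infix L (k + 1) i l h
    have e : k + (i + 1) = k + 1 + i := by ring
    rw [e]
    refine ih.trans ?_
    rw [walk_cons]
    exact ((List.suffix_append _ _).trans (List.suffix_append _ _)).isInfix

theorem rungs_mem {i j : ℕ} {l : List ℕ} (h : j ∈ l) (β : Bool) : rung i j β ∈ rungs i l := by
  rw [rungs, List.mem_flatMap]
  refine ⟨j, h, ?_⟩
  cases β <;> cases (decide (i ≤ j)) <;> simp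

/-- position of a point of the line `pq` relative to the line `rs` -/
theorem side_eq {p q a b : Pt} (r s : Pt) (h1 : cr p a q < 0) (h2 : 0 < cr p b q) :
    (cr p b q - cr p a q) * (cr r s p + tp p q a b * (cr r s q - cr r s p)) =
      cr p b q * cr r s a + (-(cr p a q)) * cr r s b := by
  have d : cr a b p - cr a b q = cr p a q - cr p b q := by unfold cr; ring
  have hd : cr a b p - cr a b q ≠ 0 := by rw [d]; linarith
  have ht : tp p q a b * (cr p b q - cr p a q) = - cr a b p := by
    unfold tp
    rw [div_mul_eq_mul_div, div_eq_iff hd, d]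
    ring
  have e : (cr p b q - cr p a q) * (cr r s p + tp p q a b * (cr r s q - cr r s p)) =
      (cr p b q - cr p a q) * cr r s p + (tp p q a b * (cr p b q - cr p a q)) *
        (cr r s q - cr r s p) := by ring
  rw [e, ht]
  unfold cr
  ring

theorem side_pos {p q a b r s : Pt} (h1 : cr p a q < 0) (h2 : 0 < cr p b q)
    (ha : 0 < cr r s a) (hb : 0 < cr r s b) :
    0 < cr r s p + tp p q a b * (cr r s q - cr r s p) := by
  have h := side_eq r s h1 h2
  have h3 : 0 < cr p b q * cr r s a + (-(cr p a q)) * cr r s b :=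
    add_pos (mul_pos h2 ha) (mul_pos (neg_pos.2 h1) hb)
  rw [← h] at h3
  exact (pos_iff_pos_of_mul_pos h3).1 (by linarith)

theorem side_neg {p q a b r s : Pt} (h1 : cr p a q < 0) (h2 : 0 < cr p b q)
    (ha : cr r s a < 0) (hb : cr r s b < 0) :
    cr r s p + tp p q a b * (cr r s q - cr r s p) < 0 := by
  have e1 : ∀ z, cr s r z = - cr r s z := fun z => by unfold cr; ring
  have := side_pos (r := s) (s := r) h1 h2 (by rw [e1]; linarith) (by rw [e1]; linarith)
  rw [e1, e1] at this
  linarith

/-- the crossing parameter lies between the parameters of the two rungs -/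
theorem between {p q r s : Pt} {t t' : ℝ} (ht : t < t')
    (h : (0 < cr r s p + t * (cr r s q - cr r s p) ∧ cr r s p + t' * (cr r s q - cr r s p) < 0) ∨
      (cr r s p + t * (cr r s q - cr r s p) < 0 ∧ 0 < cr r s p + t' * (cr r s q - cr r s p))) :
    t < tp p q r s ∧ tp p q r s < t' ∧ cr r s p + tp p q r s * (cr r s q - cr r s p) = 0 := by
  rcases h with ⟨h1, h2⟩ | ⟨h1, h2⟩
  · have hγ : cr r s q - cr r s p < 0 := by nlinarith
    have hne : cr r s p - cr r s q ≠ 0 := by linarith
    have h0 : cr r s p + tp p q r s * (cr r s q - cr r s p) = 0 := by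
      unfold tp
      field_simp
      ring
    refine ⟨?_, ?_, h0⟩
    · nlinarith
    · nlinarith
  · have hγ : 0 < cr r s q - cr r s p := by nlinarith
    have hne : cr r s p - cr r s q ≠ 0 := by linarith
    have h0 : cr r s p + tp p q r s * (cr r s q - cr r s p) = 0 := by
      unfold tp
      field_simp
      ring
    refine ⟨?_, ?_, h0⟩
    · nlinarith
    · nlinarith

section

variable {L : List (List ℕ)} {X : Vtx → Pt}

theorem conc_strip (hRT : RT ((walk 0 L).map X)) {i : ℕ} {l : List ℕ} (hl : L[i]? = some l) :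
    Conc (X (pp i)) (X (qq i)) ((rungs i l).map (Prod.map X X)) := by
  apply strip_conc
  rw [← strip_map]
  refine hRT.sub ?_
  have := strip_infix L 0 i l hl
  rw [Nat.zero_add] at this
  exact this.map X

theorem sides (hRT : RT ((walk 0 L).map X)) {i j : ℕ} {l : List ℕ} (hl : L[i]? = some l)
    (hj : j ∈ l) (β : Bool) :
    cr (X (pp i)) (X (vx i true j β)) (X (qq i)) < 0 ∧
    0 < cr (X (pp i)) (X (vx i false j β)) (X (qq i)) := by
  have h := conc_mem (conc_strip hRT hl) (Prod.map X X (rung i j β))
    (List.mem_map_of_mem (rungs_mem hj β))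
  exact ⟨h.1, h.2.1⟩

/-- parameter of a rung -/
noncomputable def tr (X : Vtx → Pt) (i j : ℕ) (β : Bool) : ℝ :=
  tp (X (pp i)) (X (qq i)) (X (vx i true j β)) (X (vx i false j β))

/-- parameter of a crossing -/
noncomputable def tc (X : Vtx → Pt) (i j : ℕ) : ℝ :=
  tp (X (pp i)) (X (qq i)) (X (pp j)) (X (qq j))

theorem tr_lt (hRT : RT ((walk 0 L).map X)) {i j : ℕ} {l : List ℕ} (hl : L[i]? = some l)
    (hj : j ∈ l) : tr X i j (decide (i ≤ j)) < tr X i j (!(decide (i ≤ j))) := by
  have h := conc_pairwise (conc_strip hRT hl)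
  rw [List.pairwise_map] at h
  obtain ⟨l1, l2, rfl⟩ := List.append_of_mem hj
  simp only [rungs, List.flatMap_append, List.flatMap_cons] at h
  have h1 := (List.pairwise_append.1 (List.pairwise_append.1 h).2.1).1
  rw [List.pairwise_cons] at h1
  exact h1.1 (rung i j (!decide (i ≤ j))) (by simp)

theorem tr_lt' (hRT : RT ((walk 0 L).map X)) {i : ℕ} {l : List ℕ} (hl : L[i]? = some l) :
    l.Pairwise fun j k => tr X i j (!(decide (i ≤ j))) < tr X i k (decide (i ≤ k)) := by
  have h := conc_pairwise (conc_strip hRT hl)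
  rw [List.pairwise_map, rungs, List.pairwise_flatMap] at h
  refine h.2.imp ?_
  intro j k hjk
  exact hjk (rung i j (!decide (i ≤ j))) (by simp) (rung i k (decide (i ≤ k))) (by simp)

/-- data for a pair of lines -/
theorem pair_data (hRT : RT ((walk 0 L).map X)) {i j : ℕ} (hij : i ≠ j) {l l' : List ℕ}
    (hl : L[i]? = some l) (hl' : L[j]? = some l') (hj : j ∈ l) (hi : i ∈ l') :
    tr X i j (decide (i ≤ j)) < tc X i j ∧ tc X i j < tr X i j (!(decide (i ≤ j))) ∧
    cr (X (pp j)) (X (qq j)) (X (pp i)) + tc X i j *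
      (cr (X (pp j)) (X (qq j)) (X (qq i)) - cr (X (pp j)) (X (qq j)) (X (pp i))) = 0 ∧
    (i < j → cr (X (pp j)) (X (qq j)) (X (qq i)) - cr (X (pp j)) (X (qq j)) (X (pp i)) < 0) := by
  have ht := tr_lt hRT hl hj
  have e1 : ∀ z w v : Pt, cr z v w = - cr z w v := fun z w v => by unfold cr; ring
  -- sides of `j`
  have left : ∀ α, 0 < cr (X (pp j)) (X (qq j)) (X (vx i α j true)) := by
    intro α
    have := (sides hRT hl' hi α).1
    rw [vx_comm hij, e1]
    linarith
  have right : ∀ α, cr (X (pp j)) (X (qq j)) (X (vx i α j false)) < 0 := by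
    intro α
    have := (sides hRT hl' hi α).2
    rw [vx_comm hij, e1]
    linarith
  have st := sides hRT hl hj true
  have sf := sides hRT hl hj false
  have gt := side_pos st.1 st.2 (left true) (left false)
  have gf := side_neg sf.1 sf.2 (right true) (right false)
  rcases lt_or_gt_of_ne hij with h | h
  · have hd : decide (i ≤ j) = true := decide_eq_true h.le
    rw [hd] at ht ⊢
    obtain ⟨b1, b2, b3⟩ := between ht (Or.inl ⟨gt, gf⟩)
    refine ⟨b1, b2, b3, fun _ => ?_⟩
    simp only [tr, Bool.not_true] at ht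
    nlinarith
  · have hd : decide (i ≤ j) = false := decide_eq_false (by omega)
    rw [hd] at ht ⊢
    obtain ⟨b1, b2, b3⟩ := between ht (Or.inr ⟨gf, gt⟩)
    exact ⟨b1, b2, b3, fun h' => absurd h' (by omega)⟩

end

theorem perm_of_valid {L : List (List ℕ)} (h : Valid L) {i : ℕ} {l : List ℕ}
    (hl : L[i]? = some l) : l.Perm ((List.range L.length).erase i) := by
  obtain ⟨h1, h2⟩ := h i l hl
  have hi : i < L.length := by
    by_contra hcon
    rw [List.getElem?_eq_none (by omega)] at hl
    simp at hl
  have hnd : ((List.range L.length).erase i).Nodup := List.nodup_range.erase i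
  have hsub : (List.range L.length).erase i ⊆ l := by
    intro j hj
    rw [List.nodup_range.mem_erase_iff] at hj
    exact h2 j (List.mem_range.1 hj.2) hj.1
  have hsp := List.subperm_of_subset hnd hsub
  refine (hsp.perm_of_length_le ?_).symm
  rw [List.length_erase_of_mem (List.mem_range.2 hi), List.length_range]
  omega

/-- cross product of the directions `p q` and `p' q'` -/
def cpd (p q p' q' : Pt) : ℝ := (q.1 - p.1) * (q'.2 - p'.2) - (q.2 - p.2) * (q'.1 - p'.1)

/-- first coordinate -/
def phi (w v : Pt) : ℝ := w.1 * v.2 - w.2 * v.1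

/-- second coordinate -/
def psi (w v : Pt) : ℝ := -(w.1 * v.1 + w.2 * v.2)

theorem cpd_eq (p q p' q' : Pt) : cpd p q p' q' = -(cr p' q' q - cr p' q' p) := by
  unfold cpd cr; ring

theorem cpd_self (p q : Pt) : cpd p q p q = 0 := by unfold cpd; ring

theorem cpd_psi (w p q p' q' : Pt) : (w.1 ^ 2 + w.2 ^ 2) * cpd p q p' q' =
    (psi w q' - psi w p') * (phi w q - phi w p) - (psi w q - psi w p) * (phi w q' - phi w p') := by
  unfold cpd phi psi; ring

theorem key_psi (w p q p' q' : Pt) (t : ℝ) :
    ((psi w p + t * (psi w q - psi w p)) - psi w p') * (phi w q' - phi w p') -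
      ((phi w p + t * (phi w q - phi w p)) - phi w p') * (psi w q' - psi w p') =
    (w.1 ^ 2 + w.2 ^ 2) * (cr p' q' p + t * (cr p' q' q - cr p' q' p)) := by
  unfold phi psi cr; ring

/-- difference of directions -/
def wd (p q p' q' : Pt) : Pt := ((q.1 - p.1) - (q'.1 - p'.1), (q.2 - p.2) - (q'.2 - p'.2))

theorem phi_wd (p q p' q' r s : Pt) :
    phi (wd p q p' q') s - phi (wd p q p' q') r = cpd p q r s + cpd r s p' q' := by
  unfold phi wd cpd; ring

/-- abscissa of a crossing -/
theorem abs_aux {w p q p' q' : Pt} {t m m' : ℝ}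
    (hm : m * (phi w q - phi w p) = psi w q - psi w p)
    (hm' : m' * (phi w q' - phi w p') = psi w q' - psi w p')
    (hne : m' - m ≠ 0) (hφ : phi w q' - phi w p' ≠ 0)
    (h0 : cr p' q' p + t * (cr p' q' q - cr p' q' p) = 0) :
    ((psi w p - m * phi w p) - (psi w p' - m' * phi w p')) / (m' - m) =
      phi w p + t * (phi w q - phi w p) := by
  rw [div_eq_iff hne]
  have key := key_psi w p q p' q' t
  rw [h0, mul_zero] at key
  generalize phi w p = a at *
  generalize phi w q = b at *
  generalize phi w p' = a' at *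
  generalize phi w q' = b' at *
  generalize psi w p = c at *
  generalize psi w q = d at *
  generalize psi w p' = c' at *
  generalize psi w q' = d' at *
  have key2 : (c + t * (d - c)) - c' = m' * ((a + t * (b - a)) - a') := by
    apply mul_right_cancel₀ hφ
    rw [← hm'] at key
    linear_combination key
  linear_combination key2 + t * hm

/-- soundness -/
theorem sound {L : List (List ℕ)} (hv : Valid L) (hn : 2 ≤ L.length) {X : Vtx → Pt}
    (hRT : RT ((walk 0 L).map X)) : L ∈ SimpleStretchability := by
  have hL : ∀ i < L.length, ∃ l, L[i]? = some l := fun i hi => ⟨L[i], List.getElem?_eq_getElem hi⟩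
  have hcross : ∀ i j, i < j → j < L.length → 0 < cpd (X (pp i)) (X (qq i)) (X (pp j)) (X (qq j)) := by
    intro i j hij hj
    obtain ⟨l, hl⟩ := hL i (by omega)
    obtain ⟨l', hl'⟩ := hL j hj
    have h := (pair_data hRT (by omega) hl hl' ((hv i l hl).2 j hj (by omega))
      ((hv j l' hl').2 i (by omega) (by omega))).2.2.2 hij
    rw [cpd_eq]
    linarith
  obtain ⟨w, hw, hφd⟩ : ∃ w : Pt, 0 < w.1 ^ 2 + w.2 ^ 2 ∧
      ∀ i < L.length, 0 < phi w (X (qq i)) - phi w (X (pp i)) := by
    have hφd : ∀ i < L.length,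
        0 < phi (wd (X (pp 0)) (X (qq 0)) (X (pp (L.length - 1))) (X (qq (L.length - 1)))) (X (qq i)) -
          phi (wd (X (pp 0)) (X (qq 0)) (X (pp (L.length - 1))) (X (qq (L.length - 1)))) (X (pp i)) := by
      intro i hi
      rw [phi_wd]
      have h0 := hcross 0 (L.length - 1) (by omega) (by omega)
      rcases Nat.eq_zero_or_pos i with rfl | hi0
      · rw [cpd_self]; linarith
      · have h1 := hcross 0 i hi0 hi
        rcases Nat.lt_or_ge i (L.length - 1) with h2 | h2
        · have := hcross i (L.length - 1) h2 (by omega)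
          linarith
        · have : i = L.length - 1 := by omega
          rw [this] at h1 ⊢
          rw [cpd_self]; linarith
    refine ⟨_, ?_, hφd⟩
    have h := hφd 0 (by omega)
    generalize wd (X (pp 0)) (X (qq 0)) (X (pp (L.length - 1))) (X (qq (L.length - 1))) = w at h
    by_contra hcon
    have h1 : w.1 = 0 := by nlinarith [sq_nonneg w.1, sq_nonneg w.2]
    have h2 : w.2 = 0 := by nlinarith [sq_nonneg w.1, sq_nonneg w.2]
    simp only [phi, h1, h2] at h
    simp at h
  have hm' : ∀ i < L.length, (fun i => (psi w (X (qq i)) - psi w (X (pp i))) /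
      (phi w (X (qq i)) - phi w (X (pp i)))) i * (phi w (X (qq i)) - phi w (X (pp i))) =
      psi w (X (qq i)) - psi w (X (pp i)) :=
    fun i hi => div_mul_cancel₀ _ (hφd i hi).ne'
  generalize (fun i => (psi w (X (qq i)) - psi w (X (pp i))) /
      (phi w (X (qq i)) - phi w (X (pp i)))) = m at hm'
  have hmono : ∀ i j, i < j → j < L.length → m i < m j := by
    intro i j hij hj
    have hi := hφd i (by omega)
    have hj' := hφd j hj
    have h := mul_pos hw (hcross i j hij hj)
    rw [cpd_psi, ← hm' i (by omega), ← hm' j hj] at h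
    have h2 : 0 < (m j - m i) * ((phi w (X (qq i)) - phi w (X (pp i))) *
        (phi w (X (qq j)) - phi w (X (pp j)))) := by linarith
    have h3 := (pos_iff_pos_of_mul_pos h2).2 (mul_pos hi hj')
    linarith
  have habs : ∀ i j, i ≠ j → i < L.length → j < L.length →
      ((psi w (X (pp i)) - m i * phi w (X (pp i))) - (psi w (X (pp j)) - m j * phi w (X (pp j)))) /
        (m j - m i) = phi w (X (pp i)) + tc X i j * (phi w (X (qq i)) - phi w (X (pp i))) := by
    intro i j hij hi hj
    obtain ⟨l, hl⟩ := hL i hi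
    obtain ⟨l', hl'⟩ := hL j hj
    have h0 := (pair_data hRT hij hl hl' ((hv i l hl).2 j hj hij.symm)
      ((hv j l' hl').2 i hi hij)).2.2.1
    refine abs_aux (hm' i hi) (hm' j hj) ?_ (hφd j hj).ne' h0
    rcases lt_or_gt_of_ne hij with h | h
    · have := hmono i j h hj; linarith
    · have := hmono j i h hi; linarith
  refine ⟨m, fun i => psi w (X (pp i)) - m i * phi w (X (pp i)), hmono,
    fun i l hl => ⟨perm_of_valid hv hl, ?_⟩⟩
  have hi : i < L.length := by
    by_contra hcon
    rw [List.getElem?_eq_none (by omega)] at hl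
    simp at hl
  have hperm := perm_of_valid hv hl
  have hmem : ∀ j ∈ l, j < L.length ∧ j ≠ i := by
    intro j hj
    have := hperm.mem_iff.1 hj
    rw [List.nodup_range.mem_erase_iff, List.mem_range] at this
    exact ⟨this.2, this.1⟩
  refine (tr_lt' hRT hl).imp_of_mem ?_
  intro j k hj hk hjk
  obtain ⟨hjn, hji⟩ := hmem j hj
  obtain ⟨hkn, hki⟩ := hmem k hk
  show _ / _ < _ / _
  rw [habs i j hji.symm hi hjn, habs i k hki.symm hi hkn]
  obtain ⟨lj, hlj⟩ := hL j hjn
  obtain ⟨lk, hlk⟩ := hL k hkn
  have hdj := pair_data hRT hji.symm hl hlj hj ((hv j lj hlj).2 i hi hji.symm)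
  have hdk := pair_data hRT hki.symm hl hlk hk ((hv k lk hlk).2 i hi hki.symm)
  have hlt : tc X i j < tc X i k := hdj.2.1.trans (hjk.trans hdk.1)
  have := mul_lt_mul_of_pos_right hlt (hφd i hi)
  linarith

end Pool.Agent.Helper51.DW
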