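import Pool.Agent.Helper51.DW.Walk

set_option autoImplicit false

/-!
# MP_09ef41_lc: right turns, the strip of a lens
-/

namespace Pool.Agent.Helper51.DW

abbrev Pt : Type := ℝ × ℝ

/-- all turns are right turns -/
def RT : List Pt → Prop
  | a :: b :: c :: l => cr a b c < 0 ∧ RT (b :: c :: l)
  | _ => True

theorem RT_cons {a b c : Pt} {l : List Pt} :
    RT (a :: b :: c :: l) ↔ cr a b c < 0 ∧ RT (b :: c :: l) := Iff.rfl

theorem RT.tail {a : Pt} {l : List Pt} (h : RT (a :: l)) : RT l := by
  match l, h with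
  | [], _ => trivial
  | [_], _ => trivial
  | _ :: _ :: _, h => exact h.2

theorem RT.right {l l' : List Pt} (h : RT (l ++ l')) : RT l' := by
  induction l with
  | nil => exact h
  | cons a l ih => exact ih h.tail

theorem RT.left {l l' : List Pt} (h : RT (l ++ l')) : RT l := by
  induction l with
  | nil => trivial
  | cons a l ih =>
    match l, h, ih with
    | [], _, _ => trivial
    | [_], _, _ => trivial
    | _ :: _ :: _, h, ih => exact ⟨h.1, ih h.2⟩

theorem RT.sub {l l' : List Pt} (h : RT l') (hl : l <:+: l') : RT l := by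
  obtain ⟨s, t, rfl⟩ := hl
  exact h.left.right

theorem chain_sub {V : Type} {R : V → V → Prop} {l l' : List V} (h : l'.IsChain R)
    (hl : l <:+: l') : l.IsChain R := by
  obtain ⟨s, t, rfl⟩ := hl
  exact h.left_of_append.right_of_append

/-- gluing along two points -/
theorem RT_glue {l l' : List Pt} {a b : Pt} :
    RT (l ++ a :: b :: l') ↔ RT (l ++ [a, b]) ∧ RT (a :: b :: l') := by
  constructor
  · intro h
    refine ⟨?_, h.right⟩
    have : l ++ a :: b :: l' = (l ++ [a, b]) ++ l' := by simp
    rw [this] at h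
    exact h.left
  · rintro ⟨h1, h2⟩
    induction l with
    | nil => exact h2
    | cons c l ih =>
      match l, h1, ih with
      | [], h1, _ => exact ⟨h1.1, h2⟩
      | [d], h1, ih => exact ⟨h1.1, ih h1.2⟩
      | d :: e :: l, h1, ih => exact ⟨h1.1, ih h1.2⟩

/-- the conditions of a strip -/
def Con (q : Pt) : Pt → Pt → List (Pt × Pt) → Prop
  | _, _, [] => True
  | a0, b0, (a, b) :: r =>
    (match r with
      | [] => cr a0 a q < 0 ∧ cr q b b0 < 0 ∧ cr a q b < 0
      | (a', b') :: _ => cr a0 a a' < 0 ∧ cr b' b b0 < 0 ∧ cr a a' b' < 0 ∧ cr a' b' b < 0 ∧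
          cr b' b a < 0 ∧ cr b a a' < 0) ∧ Con q a b r

theorem cr_cyc (a b c : Pt) : cr b c a = cr a b c := by unfold cr; ring

theorem cr_swap (a b c : Pt) : cr b a c = - cr a b c := by unfold cr; ring

/-- conditions on the lower chain -/
def Low (q : Pt) : Pt → List Pt → Prop
  | _, [] => True
  | b0, [b] => cr q b b0 < 0
  | b0, b :: b' :: l => cr b' b b0 < 0 ∧ Low q b (b' :: l)

theorem low_iff (q : Pt) : ∀ (l : List Pt) (b0 : Pt) (l' : List Pt),
    RT (q :: (l.reverse ++ b0 :: l')) ↔
      Low q b0 l ∧ (RT ((match l with | [] => q | b :: _ => b) :: b0 :: l'))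
  | [], b0, l' => by simp [Low]
  | [b], b0, l' => by
    simp only [List.reverse_cons, List.reverse_nil, List.nil_append, List.cons_append, RT_cons, Low]
  | b :: b' :: l, b0, l' => by
    have ih := low_iff q (b' :: l) b (b0 :: l')
    have e : (b :: b' :: l).reverse ++ b0 :: l' = (b' :: l).reverse ++ b :: (b0 :: l') := by simp
    rw [e, ih]
    simp only [Low, RT_cons]
    tauto

/-- conditions on the upper chain and on the quadrilaterals -/
def Upp (q : Pt) : Pt → List (Pt × Pt) → Prop
  | _, [] => True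
  | a0, (a, b) :: r =>
    (match r with
      | [] => cr a0 a q < 0 ∧ cr a q b < 0
      | (a', b') :: _ => cr a0 a a' < 0 ∧ cr a a' b' < 0 ∧ cr a' b' b < 0 ∧
          cr b' b a < 0 ∧ cr b a a' < 0) ∧ Upp q a r

theorem con_iff (q : Pt) : ∀ (r : List (Pt × Pt)) (a0 b0 : Pt),
    Con q a0 b0 r ↔ Upp q a0 r ∧ Low q b0 (r.map Prod.snd)
  | [], a0, b0 => by simp [Con, Upp, Low]
  | [(a, b)], a0, b0 => by simp [Con, Upp, Low]; tauto
  | (a, b) :: (a', b') :: r, a0, b0 => by
    have ih := con_iff q ((a', b') :: r) a b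
    simp only [Con, Upp, Low, List.map_cons] at ih ⊢
    tauto

theorem quads_cons_cons {V : Type} (q a b a' b' : V) (r : List (V × V)) :
    quads q ((a, b) :: (a', b') :: r) = a :: a' :: b' :: b :: a :: quads q ((a', b') :: r) := rfl

theorem quads_single {V : Type} (q a b : V) :
    quads q [(a, b)] = [a, q, b, a, q] := by simp [quads]

theorem quads_head {V : Type} (q a b : V) (r : List (V × V)) :
    ∃ l, quads q ((a, b) :: r) = a :: l := by
  rcases r with _ | ⟨⟨a', b'⟩, r⟩
  · exact ⟨_, quads_single q a b⟩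
  · exact ⟨_, quads_cons_cons q a b a' b' r⟩

/-- upper end of the last rung -/
def lastA {V : Type} (a : V) : List (V × V) → V
  | [] => a
  | (a', _) :: r => lastA a' r

/-- the quadrilaterals: right turns iff `Upp` -/
theorem quads_iff (q : Pt) : ∀ (r : List (Pt × Pt)) (a0 a b : Pt) (l : List Pt),
    (RT (a0 :: (quads q ((a, b) :: r) ++ l)) ↔
      Upp q a0 ((a, b) :: r) ∧ RT (lastA a r :: q :: l))
  | [], a0, a, b, l => by
    rw [quads_single]
    simp only [List.cons_append, List.nil_append, RT_cons, Upp, lastA, and_true]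
    have h1 : cr q b a = cr a q b := cr_cyc a q b
    have h2 : cr b a q = cr a q b := by rw [← h1]; exact cr_cyc q b a
    rw [h1, h2]
    tauto
  | (a', b') :: r, a0, a, b, l => by
    have ih := quads_iff q r a a' b' l
    obtain ⟨m, hm⟩ := quads_head q a' b' r
    rw [quads_cons_cons]
    rw [hm] at ih ⊢
    simp only [List.cons_append, RT_cons, Upp, lastA] at ih ⊢
    rw [ih]
    tauto

theorem lastA_head {V : Type} : ∀ (r : List (V × V)) (a b : V),
    ∃ b', ∃ l, (((a, b) :: r).map Prod.snd).reverse = b' :: l ∧ (lastA a r, b') ∈ (a, b) :: r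
  | [], a, b => ⟨b, [], by simp, by simp [lastA]⟩
  | (a', b') :: r, a, b => by
    obtain ⟨b'', l, h1, h2⟩ := lastA_head r a' b'
    refine ⟨b'', l ++ [b], ?_, ?_⟩
    · rw [List.map_cons, List.reverse_cons, h1]; rfl
    · rw [lastA]
      exact List.mem_cons_of_mem _ h2

theorem upp_last (q : Pt) : ∀ (r : List (Pt × Pt)) (a0 a b : Pt), Upp q a0 ((a, b) :: r) →
    ∀ b' l, (((a, b) :: r).map Prod.snd).reverse = b' :: l → cr (lastA a r) q b' < 0
  | [], a0, a, b, h, b', l, hl => by
    simp at hl
    rw [← hl.1]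
    exact h.1.2
  | (a', b') :: r, a0, a, b, h, b'', l, hl => by
    obtain ⟨c, m, h1, -⟩ := lastA_head r a' b'
    rw [List.map_cons, List.reverse_cons, h1] at hl
    have hc : c = b'' := by simpa using congrArg List.head? hl
    subst hc
    exact upp_last q r a a' b' h.2 c m h1

/-- right turns of a strip -/
theorem strip_iff (p q a b : Pt) (r : List (Pt × Pt)) :
    RT (strip p q ((a, b) :: r)) ↔ cr p a b < 0 ∧ Con q p p ((a, b) :: r) := by
  have h1 : cr a b p = cr p a b := cr_cyc p a b
  have h2 : cr b p a = cr p a b := by rw [← h1]; exact cr_cyc a b p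
  obtain ⟨m, hm⟩ := quads_head q a b r
  obtain ⟨b', l, h3, -⟩ := lastA_head r a b
  have key := quads_iff q r p a b ((((a, b) :: r).map Prod.snd).reverse ++ [p])
  have low := low_iff q (((a, b) :: r).map Prod.snd) p []
  have hlast := upp_last q r p a b
  rw [con_iff]
  simp only [strip]
  rw [show [p, a, b, p] ++ (quads q ((a, b) :: r) ++ ((((a, b) :: r).map Prod.snd).reverse ++ [p]))
    = p :: a :: b :: (p :: (quads q ((a, b) :: r) ++
      ((((a, b) :: r).map Prod.snd).reverse ++ [p]))) by simp]
  rw [RT_cons, RT_cons]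
  rw [hm] at key ⊢
  rw [List.cons_append, RT_cons, ← List.cons_append, key, h1, h2]
  have low' : RT (q :: ((((a, b) :: r).map Prod.snd).reverse ++ [p])) ↔
      Low q p (((a, b) :: r).map Prod.snd) := by
    rw [low]
    exact and_iff_left trivial
  rw [← low', h3, List.cons_append, RT_cons]
  have hl := fun h => hlast h b' l h3
  tauto

end Pool.Agent.Helper51.DW
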